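import Pool.Agent.N207.UH.Poly
import Pool.Agent.X255.RH.Hyp

/-!
# Independence of hyperelliptic integrals of the three kinds and logarithms
-/

set_option autoImplicit false

open Polynomial Filter Topology

namespace Pool.Agent.N207.UH

open Pool.Agent.X255.HY

section
variable {E : Type} [Field E] [Algebra ℂ E] {f : ℂ[X]} {D : Derivation ℂ E E} {τ S : E}

theorem indep3 (h : Data f D τ S) (hconst : ∀ x : E, D x = 0 → ∃ c : ℂ, algebraMap ℂ E c = x) [CharZero E] (k r : ℕ)
    (hk : k + 1 ≤ f.natDegree) (x : Fin r → ℂ) (hx : Function.Injective x) (hfx : ∀ i, f.eval (-(x i)) ≠ 0)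
    (y : Fin k ⊕ (Fin r ⊕ Fin r) → E)
    (hy : ∀ i : Fin k, D (y (Sum.inl i)) * S = aeval τ (X ^ (i : ℕ) : ℂ[X]))
    (ht : ∀ i : Fin r, D (y (Sum.inr (Sum.inl i))) * S * aeval τ (X + C (x i)) = 1)
    (hz : ∀ i : Fin r, D (y (Sum.inr (Sum.inr i))) * aeval τ (X + C (x i)) = 1) :
    AlgebraicIndependent (Fd h) y := by
  classical
  have hw : ∀ i, D (y i) ∈ Fd h := by
    rintro (i | i | i)
    · have h1 : D (y (Sum.inl i)) = aeval τ (X ^ (i : ℕ) : ℂ[X]) * S⁻¹ := by
        rw [← hy i, mul_assoc, mul_inv_cancel₀ (S_ne h), mul_one]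
      rw [h1]
      exact mul_mem (poly_mem h _) (inv_mem (S_mem h))
    · have h1 : D (y (Sum.inr (Sum.inl i))) = (S * aeval τ (X + C (x i)))⁻¹ :=
        eq_inv_of_mul_eq_one_left (by rw [← mul_assoc]; exact ht i)
      rw [h1]
      exact inv_mem (mul_mem (S_mem h) (poly_mem h _))
    · have h1 : D (y (Sum.inr (Sum.inr i))) = (aeval τ (X + C (x i)))⁻¹ := eq_inv_of_mul_eq_one_left (hz i)
      rw [h1]
      exact inv_mem (poly_mem h _)
  refine Pool.Agent.W253.LF.t_OST ℂ (Fd h) E (DF h) D (fun x => rfl) hconst (Fin k ⊕ (Fin r ⊕ Fin r)) y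
    (fun i => ⟨D (y i), hw i⟩) (fun i => rfl) ?_
  intro c g hg
  obtain ⟨A, B, Q, hQ, hg1⟩ := g.2
  set W : ℂ[X] := ∑ i : Fin k, C (c (Sum.inl i)) * X ^ (i : ℕ) with hWdef
  set U : ℂ[X] := ∑ i : Fin r, C (c (Sum.inr (Sum.inl i))) * ∏ j ∈ Finset.univ.erase i, (X + C (x j)) with hUdef
  set V : ℂ[X] := ∑ i : Fin r, C (c (Sum.inr (Sum.inr i))) * ∏ j ∈ Finset.univ.erase i, (X + C (x j)) with hVdef
  set R : ℂ[X] := ∏ i : Fin r, (X + C (x i)) with hRdef
  have hR0 : R ≠ 0 := by
    rw [hRdef]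
    exact Finset.prod_ne_zero_iff.2 fun i _ => (monic_X_add_C (x i)).ne_zero
  have hWsum : (∑ i : Fin k, algebraMap ℂ E (c (Sum.inl i)) * D (y (Sum.inl i))) * S = aeval τ W := by
    rw [Finset.sum_mul, hWdef, map_sum]
    refine Finset.sum_congr rfl fun i _ => ?_
    rw [mul_assoc, hy i, map_mul, aeval_C]
  have hUsum : (∑ i : Fin r, algebraMap ℂ E (c (Sum.inr (Sum.inl i))) * D (y (Sum.inr (Sum.inl i)))) * S *
      aeval τ R = aeval τ U := by
    rw [Finset.sum_mul, Finset.sum_mul, hUdef, map_sum]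
    refine Finset.sum_congr rfl fun i _ => ?_
    have h1 : R = (X + C (x i)) * ∏ j ∈ Finset.univ.erase i, (X + C (x j)) :=
      (Finset.mul_prod_erase _ _ (Finset.mem_univ i)).symm
    rw [h1, map_mul, map_mul, aeval_C]
    linear_combination (algebraMap ℂ E (c (Sum.inr (Sum.inl i))) *
      aeval τ (∏ j ∈ Finset.univ.erase i, (X + C (x j)))) * ht i
  have hVsum : (∑ i : Fin r, algebraMap ℂ E (c (Sum.inr (Sum.inr i))) * D (y (Sum.inr (Sum.inr i)))) *
      aeval τ R = aeval τ V := by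
    rw [Finset.sum_mul, hVdef, map_sum]
    refine Finset.sum_congr rfl fun i _ => ?_
    have h1 : R = (X + C (x i)) * ∏ j ∈ Finset.univ.erase i, (X + C (x j)) :=
      (Finset.mul_prod_erase _ _ (Finset.mem_univ i)).symm
    rw [h1, map_mul, map_mul, aeval_C]
    linear_combination (algebraMap ℂ E (c (Sum.inr (Sum.inr i))) *
      aeval τ (∏ j ∈ Finset.univ.erase i, (X + C (x j)))) * hz i
  have h1 : D (g : E) * S * aeval τ R = aeval τ (W * R + U) + S * aeval τ V := by
    have h2 : (g : E) = ∑ i, algebraMap ℂ E (c i) * y i := hg.symm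
    have h3 : D (g : E) = (∑ i : Fin k, algebraMap ℂ E (c (Sum.inl i)) * D (y (Sum.inl i))) +
        ((∑ i : Fin r, algebraMap ℂ E (c (Sum.inr (Sum.inl i))) * D (y (Sum.inr (Sum.inl i)))) +
        ∑ i : Fin r, algebraMap ℂ E (c (Sum.inr (Sum.inr i))) * D (y (Sum.inr (Sum.inr i)))) := by
      rw [h2, map_sum, Fintype.sum_sum_type, Fintype.sum_sum_type]
      have h4 : ∀ i, D (algebraMap ℂ E (c i) * y i) = algebraMap ℂ E (c i) * D (y i) := by
        intro i
        rw [Derivation.leibniz, Derivation.map_algebraMap, smul_zero, add_zero, smul_eq_mul]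
      simp only [h4]
    rw [h3, map_add, map_mul, ← hWsum, ← hUsum, ← hVsum]
    ring
  have h2 := D_rep h g A B Q hg1
  have h3 := sep h (R * (f * (2 * f * (derivative B * Q - B * derivative Q) + B * derivative f * Q)) -
      2 * f * Q * Q * (W * R + U))
    (R * (2 * f * (derivative A * Q - A * derivative Q)) - 2 * f * Q * Q * V) (by
      simp only [map_mul, map_sub, map_add, map_ofNat] at h1 h2 ⊢
      rw [← h.SS]
      rw [← h.SS] at h2
      linear_combination (-S * aeval τ R) * h2 + (2 * (S * S) * aeval τ Q * aeval τ Q) * h1)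
  have h4 : (2 * f * (derivative B * Q - B * derivative Q) + B * derivative f * Q) * R =
      2 * Q * Q * (W * R + U) := by
    apply mul_left_cancel₀ (f_ne h)
    linear_combination h3.1
  have h5 : (derivative A * Q - A * derivative Q) * R = Q * Q * V := by
    apply mul_left_cancel₀ (mul_ne_zero (two_ne_zero (α := ℂ[X])) (f_ne h))
    linear_combination h3.2
  have he := simple x (fun i => c (Sum.inr (Sum.inr i))) hx A Q hQ h5
  have he2 := third x (fun i => c (Sum.inr (Sum.inl i))) hx hfx B Q W hQ h4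
  have hU0 : U = 0 := by
    rw [hUdef]
    refine Finset.sum_eq_zero fun i _ => ?_
    have := congrFun he2 i
    simp only [Pi.zero_apply] at this
    rw [this, C_0, zero_mul]
  have h6 : 2 * f * (derivative B * Q - B * derivative Q) + B * derivative f * Q = 2 * Q * Q * W := by
    apply mul_right_cancel₀ hR0
    rw [h4, hU0]
    ring
  have hWd : W.natDegree + 2 ≤ f.natDegree ∨ k = 0 := by
    rcases Nat.eq_zero_or_pos k with h0 | h0
    · exact Or.inr h0
    · left
      have : W.natDegree ≤ k - 1 := by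
        refine natDegree_sum_le_of_forall_le _ _ fun i _ => ?_
        refine (natDegree_C_mul_X_pow_le _ _).trans ?_
        have := i.2
        omega
      omega
  have hc : ∀ i : Fin k, c (Sum.inl i) = 0 := by
    rcases hWd with hWd | h0
    · have hW0 := key h.sf B Q W hQ hWd h6
      intro i
      have h5 : W.coeff i = c (Sum.inl i) := by
        rw [hWdef, finsetSum_coeff, Finset.sum_eq_single i]
        · simp
        · intro j _ hj
          rw [coeff_C_mul, coeff_X_pow, if_neg, mul_zero]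
          intro h6
          exact hj (Fin.ext h6.symm)
        · simp
      rw [← h5, hW0]
      simp
    · subst h0
      intro i
      exact i.elim0
  funext p
  rcases p with i | i | i
  · exact hc i
  · exact congrFun he2 i
  · exact congrFun he i

end

open Pool.Agent.Y890.SP Pool.Agent.X255.RH

theorem hy3 {V : Set ℂ} (hVo : IsOpen V) (hne : V.Nonempty) (f : ℂ[X]) (hf : Squarefree f)
    (S : ℂ → ℂ) (hS : AnalyticOnNhd ℂ S V) (hSS : ∀ x ∈ V, S x ^ 2 = f.eval x) {k r : ℕ} (hk : k + 1 ≤ f.natDegree)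
    (c : Fin r → ℂ) (hc : Function.Injective c) (hfc : ∀ i, f.eval (c i) ≠ 0)
    (Φ : Fin k ⊕ (Fin r ⊕ Fin r) → ℂ → ℂ) (hΦ : ∀ i, AnalyticOnNhd ℂ (Φ i) V)
    (hd1 : ∀ i, ∀ x ∈ V, deriv (Φ (Sum.inl i)) x * S x = x ^ (i : ℕ))
    (hd3 : ∀ i, ∀ x ∈ V, deriv (Φ (Sum.inr (Sum.inl i))) x * S x * (x - c i) = 1)
    (hd2 : ∀ i, ∀ x ∈ V, deriv (Φ (Sum.inr (Sum.inr i))) x * (x - c i) = 1) : Indep V Φ := by
  classical
  obtain ⟨x0, hx0⟩ := hne
  obtain ⟨E, _, _, D, T, hconst, hTc, hTa, hTm, hTd, hTz, hTe⟩ := germ_at x0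
  have : CharZero E := charZero_of_injective_algebraMap (algebraMap ℂ E).injective
  have hVn : ∀ᶠ x in 𝓝 x0, x ∈ V := hVo.mem_nhds hx0
  set τ : E := T (fun s => s) with hτ
  have hid : AnalyticAt ℂ (fun s : ℂ => s) x0 := analyticAt_id
  have hpow : ∀ n : ℕ, T (fun s => s ^ n) = τ ^ n := by
    intro n
    induction n with
    | zero =>
      simp only [pow_zero]
      rw [hTc 1, map_one]
    | succ n ih =>
      simp only [pow_succ]
      rw [hTm (fun s => s ^ n) (fun s => s) (hid.pow n) hid, ih]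
  have halg : ∀ p : ℂ[X], aeval τ p = T (fun s => p.eval s) := by
    intro p
    induction p using Polynomial.induction_on' with
    | add p q hp hq =>
      simp only [eval_add]
      rw [hTa _ _ (p.differentiable.analyticAt x0) (q.differentiable.analyticAt x0), map_add, hp, hq]
    | monomial n a =>
      simp only [eval_monomial]
      rw [hTm (fun _ => a) (fun s => s ^ n) analyticAt_const (hid.pow n), hTc, hpow, aeval_monomial]
  have hinj : ∀ p : ℂ[X], aeval τ p = 0 → p = 0 := by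
    intro p hp
    rw [halg] at hp
    have h2 := hTz _ (p.differentiable.analyticAt x0) hp
    have h4 := (show AnalyticOnNhd ℂ (fun x => p.eval x) Set.univ from fun x _ => p.differentiable.analyticAt x).eqOn_zero_of_preconnected_of_eventuallyEq_zero
      isPreconnected_univ (Set.mem_univ x0) h2
    exact Polynomial.funext fun x => by rw [eval_zero]; exact h4 (Set.mem_univ x)
  have hdat : Pool.Agent.X255.HY.Data f D τ (T S) := by
    refine ⟨hinj, ?_, ?_, hf, by omega⟩
    · rw [hτ, ← hTd _ hid]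
      have h1 : deriv (fun s : ℂ => s) = fun _ => 1 := by
        funext s
        simp
      rw [h1, hTc, map_one]
    · rw [← hTm _ _ (hS x0 hx0) (hS x0 hx0), halg]
      refine hTe _ _ ?_
      filter_upwards [hVn] with x hx
      rw [← hSS x hx, sq]
  have hind := indep3 hdat hconst k r hk (fun i => -c i) (fun i j h => hc (neg_injective h))
    (fun i => by rw [neg_neg]; exact hfc i) (fun i => T (Φ i)) (fun i => ?_) (fun i => ?_) (fun i => ?_)
  · intro P hP
    have hev : ∀ P : MvPolynomial (Fin k ⊕ (Fin r ⊕ Fin r)) ℂ[X],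
        MvPolynomial.eval₂ (aeval τ : ℂ[X] →ₐ[ℂ] E).toRingHom (fun i => T (Φ i)) P = T (fun s => evF Φ s P) := by
      intro P
      induction P using MvPolynomial.induction_on with
      | C a =>
        rw [MvPolynomial.eval₂_C]
        show aeval τ a = _
        rw [halg]
        congr 1
        funext s
        simp [evF]
      | add p q hp hq =>
        have h1 : (fun s => evF Φ s (p + q)) = fun s => evF Φ s p + evF Φ s q := by
          funext s
          simp [evF]
        rw [MvPolynomial.eval₂_add, hp, hq, h1, hTa _ _ (evF_an hΦ p x0 hx0) (evF_an hΦ q x0 hx0)]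
      | mul_X p i hp =>
        have h1 : (fun s => evF Φ s (p * MvPolynomial.X i)) = fun s => evF Φ s p * Φ i s := by
          funext s
          simp [evF]
        rw [MvPolynomial.eval₂_mul, MvPolynomial.eval₂_X, hp, h1, hTm _ _ (evF_an hΦ p x0 hx0) (hΦ i x0 hx0)]
    let φ : ℂ[X] →+* Pool.Agent.X255.HY.Fd hdat := (aeval τ : ℂ[X] →ₐ[ℂ] E).toRingHom.codRestrict
      (Pool.Agent.X255.HY.Fd hdat).toSubfield.toSubring fun q => Pool.Agent.X255.HY.poly_mem hdat q
    have hφ : Function.Injective φ := by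
      rw [injective_iff_map_eq_zero]
      intro a ha
      exact hinj a (congrArg Subtype.val ha)
    have h1 : MvPolynomial.aeval (fun i => T (Φ i)) (MvPolynomial.map φ P) = 0 := by
      rw [MvPolynomial.aeval_def, MvPolynomial.eval₂_map]
      have h2 := hev P
      rw [hTe (fun s => evF Φ s P) (fun _ => 0) (by
        filter_upwards [hVn] with x hx
        exact hP x hx), hTc, map_zero] at h2
      exact h2
    exact MvPolynomial.map_injective φ hφ (by rw [hind.eq_zero_of_aeval_eq_zero _ h1, map_zero])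
  · rw [← hTd _ (hΦ _ x0 hx0), ← hTm _ _ (hΦ _ x0 hx0).deriv (hS x0 hx0), map_pow, aeval_X, ← hpow]
    refine hTe _ _ ?_
    filter_upwards [hVn] with x hx
    exact hd1 i x hx
  · rw [← hTd _ (hΦ _ x0 hx0), halg, ← hTm _ _ (hΦ _ x0 hx0).deriv (hS x0 hx0),
      ← hTm (fun s => deriv (Φ (Sum.inr (Sum.inl i))) s * S s) _ ((hΦ _ x0 hx0).deriv.mul (hS x0 hx0))
        ((X + C (-c i)).differentiable.analyticAt x0),
      ← map_one (algebraMap ℂ E), ← hTc 1]
    refine hTe _ _ ?_
    filter_upwards [hVn] with x hx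
    rw [eval_add, eval_X, eval_C, ← sub_eq_add_neg]
    exact hd3 i x hx
  · rw [← hTd _ (hΦ _ x0 hx0), halg, ← hTm _ _ (hΦ _ x0 hx0).deriv ((X + C (-c i)).differentiable.analyticAt x0),
      ← map_one (algebraMap ℂ E), ← hTc 1]
    refine hTe _ _ ?_
    filter_upwards [hVn] with x hx
    rw [eval_add, eval_X, eval_C, ← sub_eq_add_neg]
    exact hd2 i x hx

/-- independence does not depend on the names -/
theorem indep_equiv {σ σ' : Type} (e : σ' → σ) (he : Function.Injective e) {V : Set ℂ} {f : σ → ℂ → ℂ}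
    (h : Indep V f) : Indep V (fun i => f (e i)) := by
  intro p hp
  have h1 := h (MvPolynomial.rename e p) (fun x hx => by
    rw [← hp x hx]
    unfold evF
    rw [MvPolynomial.eval₂_rename]
    rfl)
  exact MvPolynomial.rename_injective e he (by rw [h1, map_zero])

theorem hy3' {ρ : Type} [Fintype ρ] {V : Set ℂ} (hVo : IsOpen V) (hne : V.Nonempty) (f : ℂ[X]) (hf : Squarefree f)
    (S : ℂ → ℂ) (hS : AnalyticOnNhd ℂ S V) (hSS : ∀ x ∈ V, S x ^ 2 = f.eval x) {k : ℕ} (hk : k + 1 ≤ f.natDegree)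
    (c : ρ → ℂ) (hc : Function.Injective c) (hfc : ∀ i, f.eval (c i) ≠ 0)
    (Φ : Fin k ⊕ (ρ ⊕ ρ) → ℂ → ℂ) (hΦ : ∀ i, AnalyticOnNhd ℂ (Φ i) V)
    (hd1 : ∀ i, ∀ x ∈ V, deriv (Φ (Sum.inl i)) x * S x = x ^ (i : ℕ))
    (hd3 : ∀ i, ∀ x ∈ V, deriv (Φ (Sum.inr (Sum.inl i))) x * S x * (x - c i) = 1)
    (hd2 : ∀ i, ∀ x ∈ V, deriv (Φ (Sum.inr (Sum.inr i))) x * (x - c i) = 1) : Indep V Φ := by
  classical
  let e : ρ ≃ Fin (Fintype.card ρ) := Fintype.equivFin ρ
  let g : Fin k ⊕ (ρ ⊕ ρ) → Fin k ⊕ (Fin (Fintype.card ρ) ⊕ Fin (Fintype.card ρ)) :=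
    Sum.map id (Sum.map e e)
  have hg : Function.Injective g := Sum.map_injective.2 ⟨Function.injective_id, Sum.map_injective.2 ⟨e.injective, e.injective⟩⟩
  have h1 := hy3 hVo hne f hf S hS hSS hk (fun i => c (e.symm i)) (hc.comp e.symm.injective) (fun i => hfc _)
    (fun i => Φ (Sum.map id (Sum.map e.symm e.symm) i)) (fun i => hΦ _) (fun i => hd1 i) (fun i => hd3 (e.symm i))
    (fun i => hd2 (e.symm i))
  have h2 := indep_equiv g hg h1
  have h3 : (fun i => Φ (Sum.map id (Sum.map e.symm e.symm) (g i))) = Φ := by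
    funext i
    rcases i with i | i | i <;> simp [g]
  rw [h3] at h2
  exact h2

end Pool.Agent.N207.UH
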