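import Pool.Agent.Y890.HE.Dom

/-!
# Abelian integrals as functions of all parameters
-/

set_option autoImplicit false
set_option linter.unusedSectionVars false

open Complex Set MeasureTheory Filter Topology

namespace Pool.Agent.N207.UH

open Pool.Agent.Y890.HE (slit_of_re)

/-! ### integrals with parameters -/

/-- projection to the unit interval -/
noncomputable def cl (v : ℝ) : ℝ := max 0 (min v 1)

theorem cl_mem (v : ℝ) : cl v ∈ Icc (0 : ℝ) 1 := ⟨le_max_left _ _, max_le zero_le_one (min_le_right _ _)⟩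

theorem cl_eq {v : ℝ} (h : v ∈ Icc (0 : ℝ) 1) : cl v = v := by
  rw [cl, min_eq_left h.2, max_eq_right h.1]

theorem cl_cont : Continuous cl := continuous_const.max (continuous_id.min continuous_const)

theorem int_an {X : Type} [Fintype X] {A : Set (X → ℂ)} (hA : IsOpen A) (K : ℝ → (X → ℂ) → ℂ)
    (hc : ∀ v ∈ Icc (0 : ℝ) 1, ∀ x ∈ A, ContinuousAt (fun p : ℝ × (X → ℂ) => K p.1 p.2) (v, x))
    (hd : ∀ v ∈ Icc (0 : ℝ) 1, ∀ x ∈ A, DifferentiableAt ℂ (K v) x) :
    AnalyticOnNhd ℂ (fun x => ∫ v in (0 : ℝ)..1, K v x) A := by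
  refine Pool.Agent.Y785.MV.Osg.t _ _ hA _ ?_
  have hcont : ContinuousOn (fun p : ℝ × (X → ℂ) => K p.1 p.2) (Icc 0 1 ×ˢ A) := by
    rintro ⟨u, z⟩ ⟨hu, hz⟩
    exact (hc u hu z hz).continuousWithinAt
  intro z0 hz0
  obtain ⟨r, hr, hball⟩ := Metric.nhds_basis_closedBall.mem_iff.1 (hA.mem_nhds hz0)
  obtain ⟨M, hM⟩ := (isCompact_Icc.prod (isCompact_closedBall z0 r)).exists_bound_of_continuousOn
    (hcont.mono (prod_mono le_rfl hball))
  have hpt : ∀ z ∈ A, Continuous fun v : ℝ => K (cl v) z := by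
    intro z hz
    rw [continuous_iff_continuousAt]
    intro v
    have h1 := hc (cl v) (cl_mem v) z hz
    have h2 : ContinuousAt (fun v : ℝ => (cl v, z)) v := (cl_cont.prodMk continuous_const).continuousAt
    exact ContinuousAt.comp (f := fun v : ℝ => (cl v, z)) (g := fun p : ℝ × (X → ℂ) => K p.1 p.2) h1 h2
  have key := Pool.Agent.HP.differentiableOn_integral
    (volume.restrict (Ioc (0 : ℝ) 1)) (fun v z => K (cl v) z) (Metric.ball z0 r)
    Metric.isOpen_ball
    (fun z hz => (hpt z (hball (Metric.ball_subset_closedBall hz))).aestronglyMeasurable)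
    (fun v z hz => (hd (cl v) (cl_mem v) z (hball (Metric.ball_subset_closedBall hz))).differentiableWithinAt)
    (fun _ => M) (integrable_const _)
    (fun v z hz => hM (cl v, z) ⟨cl_mem v, Metric.ball_subset_closedBall hz⟩)
  have h2 : DifferentiableAt ℂ (fun z => ∫ v in Ioc (0 : ℝ) 1, K (cl v) z) z0 :=
    (key z0 (Metric.mem_ball_self hr)).differentiableAt (Metric.isOpen_ball.mem_nhds (Metric.mem_ball_self hr))
  refine DifferentiableAt.differentiableWithinAt ?_
  have h3 : (fun z : X → ℂ => ∫ v in (0 : ℝ)..1, K v z) = fun z => ∫ v in Ioc (0 : ℝ) 1, K (cl v) z := by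
    funext z
    rw [intervalIntegral.integral_of_le zero_le_one]
    refine setIntegral_congr_fun measurableSet_Ioc fun v hv => ?_
    show K v z = K (cl v) z
    rw [cl_eq ⟨hv.1.le, hv.2⟩]
  rw [h3]
  exact h2

/-! ### abelian integrals -/

variable {n : ℕ}

/-- the product of the `1 / √(x - e i)` over all branch points but the last one -/
noncomputable def rG (e : Fin (n + 1) → ℂ) (x : ℂ) : ℂ := ∏ i : Fin n, (x - e i.castSucc) ^ (-(1 / 2) : ℂ)

/-- the points of the segment from the last branch point to `z` -/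
noncomputable def pt (e : Fin (n + 1) → ℂ) (z : ℂ) (v : ℝ) : ℂ :=
  e (Fin.last n) + (z - e (Fin.last n)) * (v : ℂ) ^ 2

/-- the integral of `h x dx / √F x`, `F = ∏ (x - e i)`, along the segment from the last branch point `e n` to `z`, with
the parametrisation `x = e n + (z - e n) v²`, `0 ≤ v ≤ 1` -/
noncomputable def abI (e : Fin (n + 1) → ℂ) (z : ℂ) (h : ℂ → ℂ) : ℂ :=
  2 * (z - e (Fin.last n)) ^ (1 / 2 : ℂ) * ∫ v in (0 : ℝ)..1, h (pt e z v) * rG e (pt e z v)

theorem pt_re (e : Fin (n + 1) → ℂ) (z : ℂ) (v : ℝ) :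
    (pt e z v).re = (e (Fin.last n)).re + (z.re - (e (Fin.last n)).re) * v ^ 2 := by
  unfold pt
  rw [← ofReal_pow, add_re, re_mul_ofReal, sub_re]

theorem pt_ge {e : Fin (n + 1) → ℂ} {z : ℂ} (hz : (e (Fin.last n)).re < z.re) (v : ℝ) :
    (e (Fin.last n)).re ≤ (pt e z v).re := by
  rw [pt_re]
  have := mul_nonneg (sub_pos.2 hz).le (sq_nonneg v)
  linarith

theorem pt_le {e : Fin (n + 1) → ℂ} {z : ℂ} (hz : (e (Fin.last n)).re < z.re) {v : ℝ} (hv : v ∈ Icc (0 : ℝ) 1) :
    (pt e z v).re ≤ z.re := by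
  rw [pt_re]
  have h1 : v ^ 2 ≤ 1 := by nlinarith [hv.1, hv.2]
  have := mul_le_mul_of_nonneg_left h1 (sub_pos.2 hz).le
  linarith

theorem slit_pt {e : Fin (n + 1) → ℂ} (he : ∀ i k, i < k → (e i).re < (e k).re) {z : ℂ}
    (hz : (e (Fin.last n)).re < z.re) (i : Fin n) (v : ℝ) : pt e z v - e i.castSucc ∈ slitPlane := by
  apply slit_of_re
  rw [sub_re]
  have := pt_ge hz v
  have := he i.castSucc (Fin.last n) (Fin.castSucc_lt_last i)
  linarith

theorem slit_root {e : Fin (n + 1) → ℂ} {z : ℂ} (hz : (e (Fin.last n)).re < z.re) :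
    z - e (Fin.last n) ∈ slitPlane := by
  apply slit_of_re
  rw [sub_re]
  linarith

theorem ne_of_slit {z : ℂ} (h : z ∈ slitPlane) : z ≠ 0 := slitPlane_ne_zero h

theorem half_mul {z : ℂ} (h : z ≠ 0) : z ^ (1 / 2 : ℂ) * z ^ (1 / 2 : ℂ) = z := by
  rw [← cpow_add _ _ h]
  norm_num

theorem half_inv {z : ℂ} (h : z ≠ 0) : z ^ (-(1 / 2) : ℂ) * z ^ (1 / 2 : ℂ) = 1 := by
  rw [← cpow_add _ _ h]
  norm_num

theorem half_ne {z : ℂ} (h : z ≠ 0) : z ^ (1 / 2 : ℂ) ≠ 0 := by
  intro h0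
  have := half_inv h
  rw [h0, mul_zero] at this
  exact zero_ne_one this

section joint

variable {X : Type} [Fintype X]

theorem pt_cont (ε : Fin (n + 1) → X) (p : X) :
    Continuous fun q : ℝ × (X → ℂ) => pt (fun i => q.2 (ε i)) (q.2 p) q.1 := by
  unfold pt
  fun_prop

theorem pt_diff (ε : Fin (n + 1) → X) (p : X) (v : ℝ) :
    Differentiable ℂ fun x : X → ℂ => pt (fun i => x (ε i)) (x p) v := by
  unfold pt
  have hd : ∀ k : X, Differentiable ℂ fun e : X → ℂ => e k := fun k => by fun_prop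
  exact (hd _).add (((hd p).sub (hd _)).mul_const _)

variable {ε : Fin (n + 1) → X} {p : X} {A : Set (X → ℂ)}

theorem rG_cont {x : X → ℂ} (he : ∀ i k, i < k → (x (ε i)).re < (x (ε k)).re)
    (hz : (x (ε (Fin.last n))).re < (x p).re) (v : ℝ) :
    ContinuousAt (fun q : ℝ × (X → ℂ) => rG (fun i => q.2 (ε i)) (pt (fun i => q.2 (ε i)) (q.2 p) q.1)) (v, x) := by
  unfold rG
  refine tendsto_finsetProd _ fun i _ => ?_
  have hi : Continuous fun p : ℝ × (X → ℂ) => p.2 (ε i.castSucc) := by fun_prop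
  exact ContinuousAt.cpow ((pt_cont ε p).continuousAt.sub hi.continuousAt) continuousAt_const
    (slit_pt (e := fun i => x (ε i)) he hz i v)

theorem rG_diff {x : X → ℂ} (he : ∀ i k, i < k → (x (ε i)).re < (x (ε k)).re)
    (hz : (x (ε (Fin.last n))).re < (x p).re) (v : ℝ) :
    DifferentiableAt ℂ (fun x : X → ℂ => rG (fun i => x (ε i)) (pt (fun i => x (ε i)) (x p) v)) x := by
  unfold rG
  have hd : ∀ k : X, Differentiable ℂ fun e : X → ℂ => e k := fun k => by fun_prop
  have H : ∀ i : Fin n, DifferentiableAt ℂ (fun x : X → ℂ => (pt (fun i => x (ε i)) (x p) v - x (ε i.castSucc)) ^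
      (-(1 / 2) : ℂ)) x := fun i =>
    DifferentiableAt.cpow_const ((pt_diff ε p v).differentiableAt.sub (hd _).differentiableAt)
      (slit_pt (e := fun i => x (ε i)) he hz i v)
  exact (HasFDerivAt.finsetProd fun i _ => (H i).hasFDerivAt).differentiableAt

theorem root_an {x : X → ℂ} (hz : (x (ε (Fin.last n))).re < (x p).re) :
    AnalyticAt ℂ (fun x : X → ℂ => 2 * (x p - x (ε (Fin.last n))) ^ (1 / 2 : ℂ)) x := by
  have hk : ∀ k : X, AnalyticAt ℂ (fun x : X → ℂ => x k) x := fun k =>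
    (ContinuousLinearMap.proj (R := ℂ) (φ := fun _ : X => ℂ) k).analyticAt x
  exact analyticAt_const.mul (((hk p).sub (hk _)).cpow analyticAt_const (slit_root (e := fun i => x (ε i)) hz))

/-- analyticity of the abelian integrals in all the variables -/
theorem abI_an (hA : IsOpen A) (h : (X → ℂ) → ℂ → ℂ)
    (hA1 : ∀ x ∈ A, (∀ i k, i < k → (x (ε i)).re < (x (ε k)).re) ∧ (x (ε (Fin.last n))).re < (x p).re)
    (hc : ∀ v ∈ Icc (0 : ℝ) 1, ∀ x ∈ A,
      ContinuousAt (fun q : ℝ × (X → ℂ) => h q.2 (pt (fun i => q.2 (ε i)) (q.2 p) q.1)) (v, x))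
    (hd : ∀ v ∈ Icc (0 : ℝ) 1, ∀ x ∈ A,
      DifferentiableAt ℂ (fun x : X → ℂ => h x (pt (fun i => x (ε i)) (x p) v)) x) :
    AnalyticOnNhd ℂ (fun x : X → ℂ => abI (fun i => x (ε i)) (x p) (h x)) A := by
  intro x hx
  unfold abI
  refine (root_an (hA1 x hx).2).mul ?_
  exact int_an hA (fun v x => h x (pt (fun i => x (ε i)) (x p) v) * rG (fun i => x (ε i)) (pt (fun i => x (ε i)) (x p) v))
    (fun v hv x hx => (hc v hv x hx).mul (rG_cont (hA1 x hx).1 (hA1 x hx).2 v))
    (fun v hv x hx => (hd v hv x hx).mul (rG_diff (hA1 x hx).1 (hA1 x hx).2 v)) x hx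

theorem abI_an_pow (hA : IsOpen A) (j : ℕ)
    (hA1 : ∀ x ∈ A, (∀ i k, i < k → (x (ε i)).re < (x (ε k)).re) ∧ (x (ε (Fin.last n))).re < (x p).re) :
    AnalyticOnNhd ℂ (fun x : X → ℂ => abI (fun i => x (ε i)) (x p) (fun y => y ^ j)) A :=
  abI_an hA (fun _ y => y ^ j) hA1 (fun v _ x _ => (pt_cont ε p).continuousAt.pow j)
    (fun v _ x _ => (pt_diff ε p v).differentiableAt.pow j)

theorem w_ne {e : Fin (n + 1) → ℂ} {z w : ℂ} (hz : (e (Fin.last n)).re < z.re) (hw : z.re < w.re) {v : ℝ}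
    (hv : v ∈ Icc (0 : ℝ) 1) : pt e z v - w ≠ 0 := by
  intro h
  have := congrArg Complex.re h
  rw [sub_re, zero_re] at this
  have := pt_le hz hv
  linarith

theorem abI_an_inv (hA : IsOpen A) (q : X)
    (hA1 : ∀ x ∈ A, (∀ i k, i < k → (x (ε i)).re < (x (ε k)).re) ∧ (x (ε (Fin.last n))).re < (x p).re)
    (hA2 : ∀ x ∈ A, (x p).re < (x q).re) :
    AnalyticOnNhd ℂ (fun x : X → ℂ => abI (fun i => x (ε i)) (x p) (fun y => (y - x q)⁻¹)) A := by
  have hd : ∀ k : X, Differentiable ℂ fun e : X → ℂ => e k := fun k => by fun_prop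
  refine abI_an hA (fun x y => (y - x q)⁻¹) hA1 (fun v hv x hx => ?_) (fun v hv x hx => ?_)
  · have hi : Continuous fun p : ℝ × (X → ℂ) => p.2 q := by fun_prop
    exact ContinuousAt.inv₀ ((pt_cont ε p).continuousAt.sub hi.continuousAt)
      (w_ne (e := fun i => x (ε i)) (hA1 x hx).2 (hA2 x hx) hv)
  · exact ((pt_diff ε p v).differentiableAt.sub (hd q).differentiableAt).inv
      (w_ne (e := fun i => x (ε i)) (hA1 x hx).2 (hA2 x hx) hv)

end joint

/-! ### derivatives -/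

/-- the root of `F` -/
noncomputable def rS (e : Fin (n + 1) → ℂ) (x : ℂ) : ℂ := ∏ i : Fin (n + 1), (x - e i) ^ (1 / 2 : ℂ)

theorem rS_sq {e : Fin (n + 1) → ℂ} {x : ℂ} (hx : ∀ i, (e i).re < x.re) : rS e x ^ 2 = ∏ i, (x - e i) := by
  unfold rS
  rw [← Finset.prod_pow]
  refine Finset.prod_congr rfl fun i _ => ?_
  rw [sq]
  apply half_mul
  intro h
  have := congrArg Complex.re h
  rw [sub_re, zero_re] at this
  have := hx i
  linarith

theorem rS_an {e : Fin (n + 1) → ℂ} {x : ℂ} (hx : ∀ i, (e i).re < x.re) : AnalyticAt ℂ (rS e) x := by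
  unfold rS
  have h : (fun x : ℂ => ∏ i : Fin (n + 1), (x - e i) ^ (1 / 2 : ℂ)) =
      ∏ i : Fin (n + 1), fun x : ℂ => (x - e i) ^ (1 / 2 : ℂ) := by
    funext x
    rw [Finset.prod_apply]
  rw [h]
  refine Finset.analyticAt_prod _ fun i _ => ?_
  refine (analyticAt_id.sub analyticAt_const).cpow analyticAt_const ?_
  apply slit_of_re
  have := hx i
  simp
  linarith

theorem rG_rS {e : Fin (n + 1) → ℂ} {x : ℂ} (hx : ∀ i, (e i).re < x.re) :
    rG e x * rS e x = (x - e (Fin.last n)) ^ (1 / 2 : ℂ) := by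
  unfold rG rS
  rw [Fin.prod_univ_castSucc, ← mul_assoc, ← Finset.prod_mul_distrib]
  rw [Finset.prod_eq_one, one_mul]
  intro i _
  apply half_inv
  intro h
  have := congrArg Complex.re h
  rw [sub_re, zero_re] at this
  have := hx i.castSucc
  linarith

theorem deriv_abI {e : Fin (n + 1) → ℂ} {z : ℂ} (hz : ∀ i, (e i).re < z.re) {G : Set ℂ} (hG : IsOpen G) {h : ℂ → ℂ}
    (hg : ContinuousOn (fun x => h x * rG e x) G) (hs : ∀ v ∈ Icc (0 : ℝ) 1, pt e z v ∈ G)
    (hd : DifferentiableAt ℂ (fun z => abI e z h) z) : deriv (fun z => abI e z h) z * rS e z = h z := by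
  set a := e (Fin.last n) with ha
  set g : ℂ → ℂ := fun x => h x * rG e x with hgdef
  set r := (z - a) ^ (1 / 2 : ℂ) with hr
  have hza : z - a ≠ 0 := ne_of_slit (slit_root (hz _))
  have hr0 : r ≠ 0 := half_ne hza
  -- the path
  set P : ℂ → ℂ := fun t => a + t ^ 2 * (z - a) with hP
  have hP1 : P 1 = z := by simp [hP]
  have h1 : HasDerivAt (fun t : ℂ => abI e (P t) h) (deriv (fun z => abI e z h) z * (2 * (z - a))) 1 := by
    have h2 : HasDerivAt (fun z => abI e z h) (deriv (fun z => abI e z h) z) (P 1) := by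
      rw [hP1]
      exact hd.hasDerivAt
    have h3 : HasDerivAt P (2 * (z - a)) 1 := by
      have h4 := (((hasDerivAt_id (1 : ℂ)).pow 2).mul_const (z - a)).const_add a
      refine h4.congr_deriv ?_
      simp
    exact h2.comp (1 : ℂ) h3
  have h2 := HasDerivAt.comp_ofReal (z := (1 : ℝ)) (by rw [ofReal_one]; exact h1)
  -- the integral
  set k : ℝ → ℂ := fun s => g (pt e z s) with hk
  set O : Set ℝ := {s | pt e z s ∈ G} with hO
  have hptc : Continuous fun s : ℝ => pt e z s := by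
    unfold pt
    fun_prop
  have hOo : IsOpen O := hG.preimage hptc
  have hkc : ∀ s ∈ O, ContinuousAt k s := by
    intro s hs
    have h3 := hg.continuousAt (hG.mem_nhds hs)
    exact ContinuousAt.comp (f := fun s : ℝ => pt e z s) (g := g) h3 hptc.continuousAt
  have h1O : (1 : ℝ) ∈ O := hs 1 ⟨zero_le_one, le_rfl⟩
  have hint : IntervalIntegrable k volume 0 1 := by
    apply ContinuousOn.intervalIntegrable
    rw [uIcc_of_le zero_le_one]
    intro s hs'
    exact (hkc s (hs s hs')).continuousWithinAt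
  have h3 := (intervalIntegral.integral_hasDerivAt_right hint
    (ContinuousAt.stronglyMeasurableAtFilter hOo hkc 1 h1O) (hkc 1 h1O)).const_mul (2 * r)
  have h4 : (fun t : ℝ => abI e (P (t : ℂ)) h) =ᶠ[𝓝 1] fun t : ℝ => 2 * r * ∫ s in (0 : ℝ)..t, k s := by
    filter_upwards [Ioi_mem_nhds (show (0 : ℝ) < 1 from one_pos)] with t ht
    have ht : 0 < t := ht
    unfold abI
    have h5 : P (t : ℂ) - e (Fin.last n) = ((t ^ 2 : ℝ) : ℂ) * (z - a) := by
      rw [hP, ← ha]
      push_cast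
      ring
    have h6 : (P (t : ℂ) - e (Fin.last n)) ^ (1 / 2 : ℂ) = t * r := by
      have h7 : ((t ^ 2 : ℝ) : ℂ) ^ (1 / 2 : ℂ) = t := by
        have h8 : (1 / 2 : ℂ) = ((1 / 2 : ℝ) : ℂ) := by push_cast; rfl
        rw [h8, ← ofReal_cpow (sq_nonneg t), ← Real.sqrt_eq_rpow, Real.sqrt_sq ht.le]
      rw [h5, hr, ← h7]
      have h9 : ((t ^ 2 : ℝ) : ℂ) ≠ 0 := by exact_mod_cast (pow_pos ht 2).ne'
      rw [cpow_def_of_ne_zero (mul_ne_zero h9 hza), cpow_def_of_ne_zero h9, cpow_def_of_ne_zero hza, ← exp_add,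
        log_ofReal_mul (pow_pos ht 2) hza, ofReal_log (sq_nonneg t)]
      congr 1
      ring
    have h7 : ∀ v : ℝ, pt e (P (t : ℂ)) v = pt e z (t * v) := by
      intro v
      unfold pt
      rw [h5]
      push_cast
      rw [← ha]
      ring
    rw [h6]
    simp only [h7]
    have h8 := intervalIntegral.integral_comp_mul_left (a := 0) (b := 1) k ht.ne'
    have h9 : (∫ v in (0 : ℝ)..1, h (pt e z (t * v)) * rG e (pt e z (t * v))) = t⁻¹ • ∫ s in (0 : ℝ)..t, k s := by
      rw [mul_zero, mul_one] at h8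
      exact h8
    rw [h9, Complex.real_smul]
    have h10 : (t : ℂ) ≠ 0 := by exact_mod_cast ht.ne'
    push_cast
    field_simp
  have h5 := h2.unique (h3.congr_of_eventuallyEq h4)
  have h6 : k 1 = h z * rG e z := by
    have : pt e z 1 = z := by
      unfold pt
      push_cast
      ring
    simp only [hk, hgdef, this]
  rw [h6] at h5
  have h7 := rG_rS hz
  rw [← ha, ← hr] at h7
  have h8 : z - a = r * r := (half_mul hza).symm
  apply mul_left_cancel₀ (mul_ne_zero two_ne_zero (mul_ne_zero hr0 hr0))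
  rw [h8] at h5
  linear_combination rS e z * h5 + 2 * r * h z * h7

end Pool.Agent.N207.UH
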