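import Pool.Agent.N207.UH.Tor

/-!
# Relations between the periods of hyperelliptic curves with marked points, over number fields
-/

set_option autoImplicit false
set_option linter.unusedSectionVars false

open Filter Matrix NumberField

namespace Pool.Agent.N207.UH

open Pool.Agent.Y118.HP (perC qm jm)
open Pool.Agent.Y890.MV
open Pool.Agent.Y890.HE (Ord fH TorH Qg Qg_eval mt legendreC torH FM)
open Pool.Agent.Y124 (Cov)

/-! ### polynomials in two groups of variables -/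

theorem sum_split {κ κ₁ κ₂ : Type} [Fintype κ] [Fintype κ₁] [Fintype κ₂] [DecidableEq κ] [DecidableEq κ₁]
    [DecidableEq κ₂] {δ : ℕ} (E : κ₁ ⊕ κ₂ ≃ κ) (C : (κ → Fin (δ + 1)) → ℂ) (Y : κ → ℂ) :
    ∑ l : κ → Fin (δ + 1), C l * ∏ y, Y y ^ (l y : ℕ) =
      ∑ b : κ₂ → Fin (δ + 1), (∑ a : κ₁ → Fin (δ + 1), C (fun q => Sum.elim a b (E.symm q)) *
        ∏ y, Y (E (Sum.inl y)) ^ (a y : ℕ)) * ∏ y, Y (E (Sum.inr y)) ^ (b y : ℕ) := by
  let e : (κ → Fin (δ + 1)) ≃ (κ₁ → Fin (δ + 1)) × (κ₂ → Fin (δ + 1)) :=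
    (Equiv.arrowCongr E.symm (Equiv.refl _)).trans (Equiv.sumArrowEquivProdArrow κ₁ κ₂ (Fin (δ + 1)))
  have h1 : ∑ l : κ → Fin (δ + 1), C l * ∏ y, Y y ^ (l y : ℕ) =
      ∑ p : (κ₁ → Fin (δ + 1)) × (κ₂ → Fin (δ + 1)), C (e.symm p) * ∏ y, Y y ^ (e.symm p y : ℕ) :=
    (Equiv.sum_comp e.symm (fun l : κ → Fin (δ + 1) => C l * ∏ y, Y y ^ (l y : ℕ))).symm
  rw [h1, Fintype.sum_prod_type_right]
  refine Finset.sum_congr rfl fun b _ => ?_
  rw [Finset.sum_mul]
  refine Finset.sum_congr rfl fun a _ => ?_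
  have h2 : e.symm (a, b) = fun q => Sum.elim a b (E.symm q) := rfl
  rw [h2, mul_assoc]
  congr 1
  rw [← Equiv.prod_comp E, Fintype.prod_sum_type]
  simp

theorem coef_zero {κ : Type} [Fintype κ] [DecidableEq κ] {δ : ℕ} (S : (κ → Fin (δ + 1)) → ℂ)
    (h : ∀ W : κ → ℂ, ∑ b, S b * ∏ y, W y ^ (b y : ℕ) = 0) (b : κ → Fin (δ + 1)) : S b = 0 := by
  let p : MvPolynomial κ ℂ := ∑ b : κ → Fin (δ + 1),
    MvPolynomial.monomial (Finsupp.equivFunOnFinite.symm fun v => (b v : ℕ)) (S b)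
  have hp : p = 0 := by
    apply MvPolynomial.funext
    intro W
    rw [map_zero, ← h W, map_sum]
    refine Finset.sum_congr rfl fun b _ => ?_
    rw [MvPolynomial.eval_monomial, Finsupp.prod_fintype _ _ (by simp)]
    rfl
  have h1 := congrArg (MvPolynomial.coeff (Finsupp.equivFunOnFinite.symm fun v => (b v : ℕ))) hp
  rw [MvPolynomial.coeff_zero, MvPolynomial.coeff_sum, Finset.sum_eq_single b] at h1
  · simpa [MvPolynomial.coeff_monomial] using h1
  · intro b' _ hb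
    rw [MvPolynomial.coeff_monomial, if_neg]
    intro h3
    apply hb
    funext v
    have h5 := DFunLike.congr_fun h3 v
    simp only [Finsupp.coe_equivFunOnFinite_symm] at h5
    exact Fin.ext h5
  · intro h3
    exact absurd (Finset.mem_univ _) h3

/-! ### the family -/

variable {ι : Type}

/-- the parameters: for every `i`, branch points and marked points -/
abbrev Par (n m : ι → ℕ) : Type := Σ i, Ba (n i) (m i)

/-- the coordinates -/
abbrev Crd (n m : ι → ℕ) : Type := Σ i, Co (n i) (m i)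

/-- names have decidable equality (instance of Mathlib) -/
local instance (n m : ι → ℕ) [DecidableEq ι] : DecidableEq (Crd n m) := inferInstance

/-- there are finitely many names (instance of Mathlib) -/
local instance (n m : ι → ℕ) [Fintype ι] : Fintype (Crd n m) := inferInstance

/-- the configurations: the real parts of the branch points and the marked points increase -/
def Conf (n m : ι → ℕ) : Set (Par n m → ℂ) :=
  {x | ∀ i, (∀ r s : Fin (n i + 1), r < s → (x ⟨i, Sum.inl r⟩).re < (x ⟨i, Sum.inl s⟩).re) ∧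
    (∀ s : Fin (m i), (x ⟨i, Sum.inl (Fin.last (n i))⟩).re < (x ⟨i, Sum.inr s⟩).re) ∧
    ∀ s t : Fin (m i), s < t → (x ⟨i, Sum.inr s⟩).re < (x ⟨i, Sum.inr t⟩).re}

theorem conf_eq (n m : ι → ℕ) : Conf n m = USig (fun i => DK (n i) (m i) 0) := by
  ext x
  constructor
  · intro h i
    exact ⟨(h i).1, fun s _ => (h i).2.1 s, fun s t _ => (h i).2.2 s t⟩
  · intro h i
    exact ⟨(h i).1, fun s => (h i).2.1 s (Nat.zero_le _), fun s t => (h i).2.2 s t (Nat.zero_le _)⟩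

/-- the numbers -/
noncomputable def num (n m : ι → ℕ) (x : Par n m → ℂ) (q : Crd n m) : ℂ :=
  fU (n q.1) (m q.1) q.2 (fun p => x ⟨q.1, p⟩)

/-- the matrix of the periods -/
def pmat {n m : ι → ℕ} (Y : Crd n m → ℂ) (i : ι) : Matrix (Fin (n i)) (Fin (n i)) ℂ :=
  Matrix.of fun a b => Y ⟨i, Sum.inl (a, b)⟩

/-- the torsor -/
def torsor (n m : ι → ℕ) (x : Par n m → ℂ) : Set ((Crd n m → ℂ) × ℂ) :=
  {p | p.2 ≠ 0 ∧ ∀ i, pmat p.1 i * qm (n i) (∏ r : Fin (n i + 1), (Polynomial.X - Polynomial.C (x ⟨i, Sum.inl r⟩))) *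
    (pmat p.1 i).transpose = p.2 • jm ℂ (n i)}

variable [Fintype ι] [DecidableEq ι]

/-- the polynomial with coefficients `∑ a, w a * c l a`, of degree at most `k` in each variable -/
noncomputable def poly (n m : ι → ℕ) {k : ℕ} (c : (Crd n m → Fin (k + 1)) → Fin k → ℂ) (w : Fin k → ℂ)
    (Y : Crd n m → ℂ) : ℂ :=
  ∑ l : Crd n m → Fin (k + 1), (∑ a, w a * c l a) * ∏ y : Crd n m, Y y ^ (l y : ℕ)

/-- the relations of degree at most `k` over `K`, with coefficients of size at most `T ^ k`, between the numbers at `x`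
and the constants `ξ`, respectively the powers of `π`, hold on the torsor -/
def Generic (n m : ι → ℕ) (k : ℕ) (K : Type) [Field K] [NumberField K] (io : K →+* ℂ) (ξ : Fin k → ℂ) (T : ℝ)
    (x : Par n m → ℂ) : Prop :=
  ∀ c : (Crd n m → Fin (k + 1)) → Fin k → 𝓞 K, (∀ l a (φ : K →+* ℂ), ‖φ (c l a : K)‖ ≤ T ^ k) →
    (poly n m (fun l a => io (c l a : K)) ξ (num n m x) = 0 →
      ∀ Y, (Y, (Real.pi : ℂ)) ∈ torsor n m x → poly n m (fun l a => io (c l a : K)) ξ Y = 0) ∧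
    (poly n m (fun l a => io (c l a : K)) (fun a => (Real.pi : ℂ) ^ (a : ℕ)) (num n m x) = 0 →
      ∀ p ∈ torsor n m x, poly n m (fun l a => io (c l a : K)) (fun a => p.2 ^ (a : ℕ)) p.1 = 0)

/-- the points over `K`, of height at most `T`, of norm at most `k` and distance at least `1 / k` from the boundary,
which are not generic -/
def Exceptional (n m : ι → ℕ) (k : ℕ) (K : Type) [Field K] [NumberField K] (io : K →+* ℂ) (ξ : Fin k → ℂ) (T : ℝ) :
    Set (Par n m → K) :=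
  {x | (∀ j, Y120.HtLe K T (x j)) ∧ (fun j => io (x j)) ∈ InnerM (Conf n m) k ∧
    ¬ Generic n m k K io ξ T (fun j => io (x j))}

theorem torsor_iff {n m : ι → ℕ} {x : Par n m → ℂ} {Y : Crd n m → ℂ} {μ : ℂ} :
    (Y, μ) ∈ torsor n m x ↔ μ ≠ 0 ∧ ∀ i, mt (fun q => Y ⟨i, Sum.inl q⟩) *
      (Qg (n i)).map (MvPolynomial.eval fun r => x ⟨i, Sum.inl r⟩) *
      (mt (fun q => Y ⟨i, Sum.inl q⟩)).transpose = μ • jm ℂ (n i) := by
  unfold torsor
  simp only [Set.mem_ofPred_eq, Qg_eval]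
  rfl

/-- the coordinates in two groups -/
def Ecrd (n m : ι → ℕ) : (Σ i, Fin (n i) × Fin (n i)) ⊕ (Σ i, Fr (n i) (m i)) ≃ Crd n m :=
  (Equiv.sigmaSumDistrib (fun i => Fin (n i) × Fin (n i)) (fun i => Fr (n i) (m i))).symm

theorem num_mem {n m : ι → ℕ} (hn : ∀ i, Even (n i)) {x : Par n m → ℂ} (hx : x ∈ Conf n m) :
    (num n m x, (Real.pi : ℂ)) ∈ torsor n m x := by
  rw [torsor_iff]
  refine ⟨by exact_mod_cast Real.pi_ne_zero, fun i => ?_⟩
  have h0 : (fun q : Fin (n i) × Fin (n i) => num n m x ⟨i, Sum.inl q⟩) =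
      fun q => fH (n i) q (fun r => x ⟨i, Sum.inl r⟩) := funext fun q => fU_per q _
  have he : (fun r => x ⟨i, Sum.inl r⟩) ∈ Ord (n i) := (hx i).1
  have h1 := legendreC (hn i) he
  unfold FM at h1
  rw [h0]
  exact h1

/-- from the torsor with multiplier `π` to the full torsor -/
theorem fullU {n m : ι → ℕ} (hn : ∀ i, Even (n i)) {K : Type} [Field K] [NumberField K] (io : K →+* ℂ)
    (x : Par n m → K) (hx : (fun j => io (x j)) ∈ Conf n m) {δ h : ℕ} (c : (Crd n m → Fin (δ + 1)) → Fin h → K)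
    (H : ∀ Y, (Y, (Real.pi : ℂ)) ∈ torsor n m (fun j => io (x j)) →
      ∑ l, (∑ a : Fin h, (Real.pi : ℂ) ^ (a : ℕ) * io (c l a)) * ∏ y, Y y ^ (l y : ℕ) = 0)
    {μ : ℂ} (Y : Crd n m → ℂ) (hY : (Y, μ) ∈ torsor n m (fun j => io (x j))) :
    ∑ l, (∑ a : Fin h, μ ^ (a : ℕ) * io (c l a)) * ∏ y, Y y ^ (l y : ℕ) = 0 := by
  classical
  have hπ : (Real.pi : ℂ) ≠ 0 := by exact_mod_cast Real.pi_ne_zero
  rw [torsor_iff] at hY
  rw [sum_split (Ecrd n m)]
  refine Finset.sum_eq_zero fun b _ => ?_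
  set e : (Σ i, Fin (n i + 1)) → K := fun q => x ⟨q.1, Sum.inl q.2⟩ with he
  have h1 := Pool.Agent.Y890.HE.full hn io e (fun i => (hx i).1)
    (fun (a : (Σ i, Fin (n i) × Fin (n i)) → Fin (δ + 1)) (r : Fin h) =>
      c (fun q => Sum.elim a b ((Ecrd n m).symm q)) r) (fun Z hZ => by
      have h2 := coef_zero (κ := Σ i, Fr (n i) (m i)) (δ := δ) (fun b => ∑ a : (Σ i, Fin (n i) × Fin (n i)) → Fin (δ + 1),
        (∑ r : Fin h, (Real.pi : ℂ) ^ (r : ℕ) * io (c (fun q => Sum.elim a b ((Ecrd n m).symm q)) r)) *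
          ∏ y, Z y ^ (a y : ℕ)) (fun W => by
          have h3 := H (fun q => Sum.elim Z W ((Ecrd n m).symm q)) (by
            rw [torsor_iff]
            exact ⟨hπ, fun i => hZ i⟩)
          rw [sum_split (Ecrd n m)] at h3
          simp only [Equiv.symm_apply_apply, Sum.elim_inl, Sum.elim_inr] at h3
          exact h3) b
      exact h2) hY.1 (fun q => Y ⟨q.1, Sum.inl q.2⟩) hY.2
  have h4 : ∀ a : (Σ i, Fin (n i) × Fin (n i)) → Fin (δ + 1), ∏ y, Y (Ecrd n m (Sum.inl y)) ^ (a y : ℕ) =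
      ∏ y : (Σ i, Fin (n i) × Fin (n i)), Y ⟨y.1, Sum.inl y.2⟩ ^ (a y : ℕ) := fun a => rfl
  simp only [h4]
  rw [h1, zero_mul]

theorem exceptional_sub {n m : ι → ℕ} (hn : ∀ i, Even (n i)) (k : ℕ) (hk : 0 < k) (K : Type) [Field K] [NumberField K]
    (io : K →+* ℂ) (ξ : Fin k → ℂ) (T : ℝ) : Exceptional n m k K io ξ T ⊆
      ExcT k (fSig (fun i => fU (n i) (m i))) (TSig (fun i => TorU (n i) (m i))) (InnerM (Conf n m) k) K io ξ (k : ℝ) T ∪
      ExcT k (fSig (fun i => fU (n i) (m i))) (TSig (fun i => TorU (n i) (m i))) (InnerM (Conf n m) k) K io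
        (fun a : Fin k => (Real.pi : ℂ) ^ (a : ℕ)) (k : ℝ) T := by
  classical
  rintro x ⟨h1, h2, h3⟩
  by_contra hcon
  rw [Set.mem_union, not_or] at hcon
  obtain ⟨h4, h5⟩ := hcon
  apply h3
  intro c hc
  have hc' : ∀ l i (φ : K →+* ℂ), ‖φ (c l i : K)‖ ≤ T ^ (k : ℝ) := by
    intro l i φ
    rw [Real.rpow_natCast]
    exact hc l i φ
  have key : ∀ w : Fin k → ℂ, x ∉ ExcT k (fSig (fun i => fU (n i) (m i))) (TSig (fun i => TorU (n i) (m i)))
      (InnerM (Conf n m) k) K io w (k : ℝ) T →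
      poly n m (fun l a => io (c l a : K)) w (num n m (fun j => io (x j))) = 0 →
      ∀ Y ∈ TSig (fun i => TorU (n i) (m i)) (fun j => io (x j)),
        ∑ l, (∑ a, w a * io (c l a : K)) * ∏ y, Y y ^ (l y : ℕ) = 0 := by
    intro w hw hw0
    by_contra hne
    exact hw ⟨h1, h2, c, hc', hw0, hne⟩
  have hmem : ∀ Y, (Y, (Real.pi : ℂ)) ∈ torsor n m (fun j => io (x j)) →
      Y ∈ TSig (fun i => TorU (n i) (m i)) (fun j => io (x j)) := by
    intro Y hY
    rw [torsor_iff] at hY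
    exact hY.2
  refine ⟨fun h6 Y hY => key ξ h4 h6 Y (hmem Y hY), fun h6 => ?_⟩
  rintro ⟨Y, μ⟩ hp
  exact fullU hn io x (innerM_sub _ hk h2) (fun l a => (c l a : K))
    (fun Y hY => key (fun a => (Real.pi : ℂ) ^ (a : ℕ)) h5 h6 Y (hmem Y hY)) Y hp

theorem main [Nonempty ι] (n m : ι → ℕ) (hn : ∀ i, Even (n i)) :
    ∃ (ω : ℝ → ℕ) (T₀ : ℝ), Tendsto ω atTop atTop ∧ Monotone ω ∧ ∀ T, T₀ ≤ T → 0 < ω T ∧
      ∀ (K : Type) [Field K] [NumberField K], Module.finrank ℚ K ≤ ω T → ∀ (io : K →+* ℂ) (ξ : Fin (ω T) → ℂ),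
        Cov ⌊T ^ ((ω T : ℝ)⁻¹)⌋₊ ⌊T ^ ((ω T : ℝ)⁻¹)⌋₊
          ((fun (x : Par n m → K) j => io (x j)) '' Exceptional n m (ω T) K io ξ T) ∧
        (Exceptional n m (ω T) K io ξ T).Finite ∧
        ((Exceptional n m (ω T) K io ξ T).ncard : ℝ) ≤
          T ^ ((ω T : ℝ)⁻¹) * ({x : K | Y120.HtLe K T x}.ncard : ℝ) ^ (Fintype.card (Par n m) - 1) := by
  classical
  obtain ⟨i0⟩ := ‹Nonempty ι›
  have : Nonempty (Par n m) := ⟨⟨i0, Sum.inl 0⟩⟩
  refine omega_gen (fun k => Fin k → ℂ) (fun k K _ _ io ξ T => Exceptional n m k K io ξ T)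
    (fun k K _ _ io ξ T s hs => hs.1) ?_
  intro k ε hε
  rcases Nat.eq_zero_or_pos k with hk | hk
  · refine ⟨0, 0, 2, le_rfl, le_rfl, ?_⟩
    intro K _ _ hK
    have h1 : 0 < Module.finrank ℚ K := Module.finrank_pos
    omega
  have hUo : IsOpen (Conf n m) := by
    rw [conf_eq]
    exact USig_open fun i => DK_open (n i) (m i) 0
  have hUc : IsPreconnected (Conf n m) := by
    rw [conf_eq]
    exact (USig_convex fun i => DK_convex (n i) (m i) 0).isPreconnected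
  have hUn : (Conf n m).Nonempty := by
    rw [conf_eq]
    exact USig_nonempty fun i => DK_nonempty (n i) (m i) 0
  have hlvl : ∀ (i : ι) (c : Co (n i) (m i)), lvl 0 c := by
    intro i c
    rcases c with q | q
    · trivial
    · exact Nat.zero_le _
  have hf : ∀ q, AnalyticOnNhd ℂ (fSig (fun i => fU (n i) (m i)) q) (Conf n m) := by
    rw [conf_eq]
    exact fSig_an fun i s => fU_an 0 s (hlvl i s)
  have hT : TorM (Conf n m) (fSig (fun i => fU (n i) (m i))) (TSig (fun i => TorU (n i) (m i))) := by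
    rw [conf_eq]
    exact TorM.sig fun i => torU (hn i)
  obtain ⟨D, C, T₀, hC, hT₀, H⟩ := excT_cov hUc hUo hUn hf hT (InnerM (Conf n m) k) (innerM_compact _ _)
    (innerM_sub _ hk) k (Fin k) k (k : ℝ) ε hε
  refine ⟨D, 2 * C, T₀, by positivity, hT₀, fun K _ _ hK io ξ T hT0 => ?_⟩
  have h1 := (H K hK io ξ T hT0).union (H K hK io (fun a : Fin k => (Real.pi : ℂ) ^ (a : ℕ)) T hT0)
  rw [← Set.image_union] at h1
  refine h1.mono le_rfl ?_ (Set.image_mono (exceptional_sub hn k hk K io ξ T))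
  have h2 : (0 : ℝ) ≤ C * T ^ ε := by
    have : (0 : ℝ) < T := by linarith
    positivity
  apply Nat.le_floor
  push_cast
  have h3 := Nat.floor_le h2
  linarith

end Pool.Agent.N207.UH
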