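import Pool.Agent.N207.UH.Fun

/-!
# Abelian integrals with real parameters
-/

set_option autoImplicit false

open Complex Set MeasureTheory Filter Topology

namespace Pool.Agent.N207.UH

variable {n : ℕ}

theorem abI_real {e : Fin (n + 1) → ℝ} (he : StrictMono e) {z : ℝ} (hz : e (Fin.last n) < z) (h : ℝ → ℝ) (hC : ℂ → ℂ)
    (hh : ∀ y : ℝ, e (Fin.last n) ≤ y → y ≤ z → hC (y : ℂ) = (h y : ℂ)) :
    abI (fun i => (e i : ℂ)) (z : ℂ) hC =
      ((∫ y in (e (Fin.last n))..z, h y / √(∏ i, (y - e i)) : ℝ) : ℂ) := by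
  set a := e (Fin.last n) with ha
  have hL : 0 < z - a := sub_pos.2 hz
  set f : ℝ → ℝ := fun v => a + (z - a) * v ^ 2 with hf
  have hfd : ∀ v, HasDerivAt f ((z - a) * (2 * v)) v := by
    intro v
    have h1 := (((hasDerivAt_id v).pow 2).const_mul (z - a)).const_add a
    refine h1.congr_deriv ?_
    simp
  have hinj : InjOn f (Ioo 0 1) := by
    intro v hv w hw h1
    have h2 : v ^ 2 = w ^ 2 := mul_left_cancel₀ hL.ne' (add_left_cancel h1)
    exact (sq_eq_sq₀ hv.1.le hw.1.le).1 h2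
  have himg : f '' (Ioo 0 1) = Ioo a z := by
    apply Subset.antisymm
    · rintro _ ⟨v, hv, rfl⟩
      have h2 : v ^ 2 < 1 := by nlinarith [hv.1, hv.2]
      constructor
      · simp only [hf]
        nlinarith [mul_pos hL (pow_pos hv.1 2)]
      · simp only [hf]
        nlinarith [mul_pos hL (sub_pos.2 h2)]
    · intro y hy
      set u := (y - a) / (z - a) with hu
      have hu0 : 0 < u := div_pos (by linarith [hy.1]) hL
      have hu1 : u < 1 := by rw [hu, div_lt_one hL]; linarith [hy.2]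
      refine ⟨√u, ⟨Real.sqrt_pos.2 hu0, ?_⟩, ?_⟩
      · rw [Real.sqrt_lt' one_pos]
        simpa using hu1
      · simp only [hf]
        rw [Real.sq_sqrt hu0.le, hu]
        field_simp
        ring
  have hfmem : ∀ v ∈ Icc (0 : ℝ) 1, a ≤ f v ∧ f v ≤ z := by
    intro v hv
    have h2 : v ^ 2 ≤ 1 := by nlinarith [hv.1, hv.2]
    simp only [hf]
    constructor
    · nlinarith [mul_nonneg hL.le (sq_nonneg v)]
    · nlinarith [mul_nonneg hL.le (sub_nonneg.2 h2)]
  have hpos : ∀ v ∈ Icc (0 : ℝ) 1, ∀ i : Fin n, 0 < f v - e i.castSucc := by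
    intro v hv i
    have h1 := (hfmem v hv).1
    have h2 := he (Fin.castSucc_lt_last i)
    rw [← ha] at h2
    linarith
  have hpt : ∀ v : ℝ, pt (fun i => (e i : ℂ)) (z : ℂ) v = ((f v : ℝ) : ℂ) := by
    intro v
    simp only [pt, hf]
    push_cast
    rw [← ha]
  have hrG : ∀ v ∈ Icc (0 : ℝ) 1, rG (fun i => (e i : ℂ)) ((f v : ℝ) : ℂ) =
      (((√(∏ i : Fin n, (f v - e i.castSucc)))⁻¹ : ℝ) : ℂ) := by
    intro v hv
    unfold rG
    have h1 : ∀ i : Fin n, (((f v : ℝ) : ℂ) - (e i.castSucc : ℂ)) ^ (-(1 / 2) : ℂ) =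
        (((f v - e i.castSucc) ^ (-(1 / 2) : ℝ) : ℝ) : ℂ) := by
      intro i
      rw [ofReal_cpow (hpos v hv i).le]
      push_cast
      rfl
    rw [Finset.prod_congr rfl fun i _ => h1 i, ← ofReal_prod,
      Real.finsetProd_rpow _ _ (fun i _ => (hpos v hv i).le), Real.rpow_neg
        (Finset.prod_nonneg fun i _ => (hpos v hv i).le), ← Real.sqrt_eq_rpow]
  have hroot : ((z : ℂ) - ((e (Fin.last n) : ℝ) : ℂ)) ^ (1 / 2 : ℂ) = ((√(z - a) : ℝ) : ℂ) := by
    rw [← ha, ← ofReal_sub, Real.sqrt_eq_rpow, ofReal_cpow hL.le]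
    push_cast
    rfl
  have h1 : abI (fun i => (e i : ℂ)) (z : ℂ) hC =
      ((2 * √(z - a) * ∫ v in (0 : ℝ)..1, h (f v) * (√(∏ i : Fin n, (f v - e i.castSucc)))⁻¹ : ℝ) : ℂ) := by
    unfold abI
    simp only []
    rw [hroot]
    push_cast
    congr 1
    rw [← intervalIntegral.integral_ofReal]
    refine intervalIntegral.integral_congr fun v hv => ?_
    rw [uIcc_of_le zero_le_one] at hv
    rw [hpt, hrG v hv, hh (f v) (hfmem v hv).1 (hfmem v hv).2]
    push_cast
    rfl
  rw [h1]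
  congr 1
  rw [intervalIntegral.integral_of_le hz.le, intervalIntegral.integral_of_le zero_le_one, integral_Ioc_eq_integral_Ioo,
    integral_Ioc_eq_integral_Ioo, ← himg,
    integral_image_eq_integral_abs_deriv_smul measurableSet_Ioo (fun v _ => (hfd v).hasDerivWithinAt) hinj,
    ← integral_const_mul]
  refine setIntegral_congr_fun measurableSet_Ioo fun v hv => ?_
  have hv' : v ∈ Icc (0 : ℝ) 1 := ⟨hv.1.le, hv.2.le⟩
  have hW : 0 < ∏ i : Fin n, (f v - e i.castSucc) := Finset.prod_pos fun i _ => hpos v hv' i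
  have h2 : ∏ i : Fin (n + 1), (f v - e i) = (∏ i : Fin n, (f v - e i.castSucc)) * ((z - a) * v ^ 2) := by
    rw [Fin.prod_univ_castSucc]
    congr 1
    simp only [hf]
    rw [← ha]
    ring
  simp only [smul_eq_mul]
  rw [h2, Real.sqrt_mul hW.le, Real.sqrt_mul hL.le, Real.sqrt_sq hv.1.le,
    abs_of_pos (mul_pos hL (mul_pos two_pos hv.1))]
  have h3 : √(∏ i : Fin n, (f v - e i.castSucc)) ≠ 0 := (Real.sqrt_pos.2 hW).ne'
  have h4 : √(z - a) ≠ 0 := (Real.sqrt_pos.2 hL).ne'
  have h5 : z - a = √(z - a) * √(z - a) := (Real.mul_self_sqrt hL.le).symm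
  have h6 : v ≠ 0 := hv.1.ne'
  have h7 : (z - a) * (2 * v) = √(z - a) * √(z - a) * (2 * v) := by rw [← h5]
  rw [h7]
  field_simp

theorem log_real {a z w : ℝ} (haz : a < z) (hzw : z < w) :
    Complex.log ((w : ℂ) - (z : ℂ)) - Complex.log ((w : ℂ) - (a : ℂ)) = ((∫ y in a..z, (y - w)⁻¹ : ℝ) : ℂ) := by
  have h1 : ∫ y in a..z, (y - w)⁻¹ = Real.log (w - z) - Real.log (w - a) := by
    have h2 : ∀ y ∈ uIcc a z, HasDerivAt (fun y : ℝ => Real.log (w - y)) ((y - w)⁻¹) y := by
      intro y hy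
      rw [uIcc_of_le haz.le] at hy
      have h3 : w - y ≠ 0 := by
        have := hy.2
        intro h
        linarith
      have h4 := ((hasDerivAt_id y).const_sub w).log h3
      refine h4.congr_deriv ?_
      have h5 : y - w ≠ 0 := by
        intro h
        apply h3
        linarith
      simp only [id]
      field_simp
      ring
    refine intervalIntegral.integral_eq_sub_of_hasDerivAt h2 ?_
    apply ContinuousOn.intervalIntegrable
    intro y hy
    rw [uIcc_of_le haz.le] at hy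
    refine ContinuousAt.continuousWithinAt ((continuousAt_id.sub continuousAt_const).inv₀ ?_)
    have := hy.2
    intro h
    have h' : y - w = 0 := h
    linarith
  rw [h1, ofReal_sub, ofReal_log (by linarith), ofReal_log (by linarith), ofReal_sub, ofReal_sub]

end Pool.Agent.N207.UH
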