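import Pool.Agent.N207.UH.Ind
import Pool.Agent.Y890.MV.Tor

/-!
# Specialisation of all the variables but one
-/

set_option autoImplicit false
set_option linter.unusedSectionVars false

open Polynomial

namespace Pool.Agent.N207.UH

open Pool.Agent.Y890.MV (evX evM_eq TorM evM_an)
open Pool.Agent.Y890.SP (evF)
open Pool.Agent.X255.RH (Indep)

variable {X σ τ : Type} [DecidableEq X]

open Classical in
/-- replacement of the values at the image of `em` -/
noncomputable def mix {R : Type} (em : τ → σ) (Y : σ → R) (Z : τ → R) : σ → R :=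
  fun c => if h : ∃ t, em t = c then Z h.choose else Y c

theorem mix_em {R : Type} {em : τ → σ} (hem : Function.Injective em) (Y : σ → R) (Z : τ → R) (t : τ) :
    mix em Y Z (em t) = Z t := by
  have h : ∃ t', em t' = em t := ⟨t, rfl⟩
  unfold mix
  rw [dif_pos h, hem h.choose_spec]

theorem mix_ne {R : Type} {em : τ → σ} (Y : σ → R) (Z : τ → R) {c : σ} (h : ∀ t, em t ≠ c) :
    mix em Y Z c = Y c := by
  unfold mix
  rw [dif_neg]
  rintro ⟨t, ht⟩
  exact h t ht

theorem mix_self {R : Type} (em : τ → σ) (Y : σ → R) : mix em Y (fun t => Y (em t)) = Y := by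
  funext c
  unfold mix
  split_ifs with h
  · show Y (em h.choose) = Y c
    rw [h.choose_spec]
  · rfl

/-- specialisation -/
noncomputable def sp (x : X → ℂ) (i0 : X) (em : τ → σ) (Y : σ → ℂ) :
    MvPolynomial σ (MvPolynomial X ℂ) →+* MvPolynomial τ ℂ[X] :=
  MvPolynomial.eval₂Hom (MvPolynomial.C.comp (MvPolynomial.eval₂Hom Polynomial.C
    (Function.update (fun i => Polynomial.C (x i)) i0 Polynomial.X)))
    (mix em (fun c => MvPolynomial.C (Polynomial.C (Y c))) (fun t => MvPolynomial.X t))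

theorem sp_ev (x : X → ℂ) (i0 : X) {em : τ → σ} (hem : Function.Injective em) (Y : σ → ℂ) (Φ : τ → ℂ → ℂ) (z : ℂ)
    (p : MvPolynomial σ (MvPolynomial X ℂ)) :
    evF Φ z (sp x i0 em Y p) = evX (Function.update x i0 z) (mix em Y (fun t => Φ t z)) p := by
  let E : MvPolynomial τ ℂ[X] →+* ℂ := MvPolynomial.eval₂Hom (Polynomial.evalRingHom z) (fun t => Φ t z)
  have h1 : E.comp (sp x i0 em Y) = MvPolynomial.eval₂Hom (MvPolynomial.eval (Function.update x i0 z))
      (mix em Y (fun t => Φ t z)) := by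
    refine MvPolynomial.ringHom_ext (fun a => ?_) (fun c => ?_)
    · have h2 : (E.comp (sp x i0 em Y)).comp MvPolynomial.C = MvPolynomial.eval (Function.update x i0 z) := by
        refine MvPolynomial.ringHom_ext (fun b => ?_) (fun i => ?_)
        · simp [E, sp]
        · by_cases h : i = i0
          · subst h
            simp [E, sp]
          · simp [E, sp, Function.update_of_ne h]
      have h3 := congrArg (fun g => g a) h2
      simp only [RingHom.comp_apply] at h3
      rw [RingHom.comp_apply, h3]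
      exact (MvPolynomial.eval₂Hom_C _ _ _).symm
    · by_cases h : ∃ t, em t = c
      · obtain ⟨t, rfl⟩ := h
        simp [E, sp, mix_em hem]
      · push Not at h
        simp [E, sp, mix_ne _ _ h]
  exact congrArg (fun g => g p) h1

/-- **The step.** Independence on a line -/
theorem line {x : X → ℂ} {i0 : X} {em : τ → σ} (hem : Function.Injective em) {Y : σ → ℂ} {Φ : τ → ℂ → ℂ} {V : Set ℂ}
    (hΦ : Indep V Φ) {p : MvPolynomial σ (MvPolynomial X ℂ)}
    (H : ∀ z ∈ V, evX (Function.update x i0 z) (mix em Y (fun t => Φ t z)) p = 0) : evX x Y p = 0 := by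
  have h1 : sp x i0 em Y p = 0 := hΦ _ fun z hz => by
    rw [sp_ev x i0 hem]
    exact H z hz
  have h2 := sp_ev x i0 hem Y (fun t _ => Y (em t)) (x i0) p
  rw [h1, mix_self, Function.update_eq_self] at h2
  rw [← h2]
  exact MvPolynomial.eval₂_zero _ _

/-- specialisation of the second group of variables -/
noncomputable def sps {X₁ X₂ σ₁ σ₂ : Type} (z : X₂ → ℂ) (W : σ₂ → ℂ) :
    MvPolynomial (σ₁ ⊕ σ₂) (MvPolynomial (X₁ ⊕ X₂) ℂ) →+* MvPolynomial σ₁ (MvPolynomial X₁ ℂ) :=
  MvPolynomial.eval₂Hom (MvPolynomial.C.comp (MvPolynomial.eval₂Hom MvPolynomial.C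
    (Sum.elim (fun i => MvPolynomial.X i) (fun i => MvPolynomial.C (z i)))))
    (Sum.elim (fun c => MvPolynomial.X c) (fun c => MvPolynomial.C (MvPolynomial.C (W c))))

theorem sps_ev {X₁ X₂ σ₁ σ₂ : Type} (z : X₂ → ℂ) (W : σ₂ → ℂ) (e : X₁ → ℂ) (Z : σ₁ → ℂ)
    (p : MvPolynomial (σ₁ ⊕ σ₂) (MvPolynomial (X₁ ⊕ X₂) ℂ)) :
    evX e Z (sps z W p) = evX (Sum.elim e z) (Sum.elim Z W) p := by
  let E : MvPolynomial σ₁ (MvPolynomial X₁ ℂ) →+* ℂ := MvPolynomial.eval₂Hom (MvPolynomial.eval e) Z
  have h1 : E.comp (sps z W) = MvPolynomial.eval₂Hom (MvPolynomial.eval (Sum.elim e z)) (Sum.elim Z W) := by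
    refine MvPolynomial.ringHom_ext (fun a => ?_) (fun c => ?_)
    · have h2 : (E.comp (sps z W)).comp MvPolynomial.C = MvPolynomial.eval (Sum.elim e z) := by
        refine MvPolynomial.ringHom_ext (fun b => ?_) (fun i => ?_)
        · simp [E, sps]
        · rcases i with i | i <;> simp [E, sps]
      have h3 := congrArg (fun g => g a) h2
      simp only [RingHom.comp_apply] at h3
      rw [RingHom.comp_apply, h3]
      exact (MvPolynomial.eval₂Hom_C _ _ _).symm
    · rcases c with c | c <;> simp [E, sps]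
  exact congrArg (fun g => g p) h1

end Pool.Agent.N207.UH
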