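import Pool.Agent.N207.UH.Fun
import Pool.Agent.N207.UH.Spec
import Pool.Agent.Y890.HE.Main

/-!
# The torsor of the periods of the universal hyperelliptic curve with marked points
-/

set_option autoImplicit false
set_option linter.unusedSectionVars false

open Complex Set Filter Topology

namespace Pool.Agent.N207.UH

open Pool.Agent.Y118.HP (perC)
open Pool.Agent.Y890.HE (Ord Ord_open Ord_convex Ord_nonempty fH fH_an TorH torH upd_an slit_of_re perC_an legendreC)
open Pool.Agent.Y890.MV (evX evM_eq TorM evM_an evM)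
open Pool.Agent.Y890.SP (evF)
open Pool.Agent.X255.RH (Indep)

/-- pairs of marked points -/
abbrev Pr (m : ℕ) := {q : Fin m × Fin m // q.1 < q.2}

/-- the coordinates: the integrals of the first and second kind up to the marked points, the integrals of the third
kind, the logarithms -/
abbrev Fr (n m : ℕ) := (Fin m × Fin n) ⊕ (Pr m ⊕ Pr m)

/-- all the coordinates -/
abbrev Co (n m : ℕ) := (Fin n × Fin n) ⊕ Fr n m

/-- the parameters: branch points and marked points -/
abbrev Ba (n m : ℕ) := Fin (n + 1) ⊕ Fin m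

variable {n m : ℕ}

/-- the integrals up to the marked points, and between the marked points -/
noncomputable def fF (n m : ℕ) : Fr n m → (Ba n m → ℂ) → ℂ
  | Sum.inl q => fun x => abI (fun i => x (Sum.inl i)) (x (Sum.inr q.1)) (fun y => y ^ (q.2 : ℕ))
  | Sum.inr (Sum.inl q) => fun x =>
      abI (fun i => x (Sum.inl i)) (x (Sum.inr q.1.1)) (fun y => (y - x (Sum.inr q.1.2))⁻¹)
  | Sum.inr (Sum.inr q) => fun x =>
      log (x (Sum.inr q.1.2) - x (Sum.inr q.1.1)) - log (x (Sum.inr q.1.2) - x (Sum.inl (Fin.last n)))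

/-- all the numbers -/
noncomputable def fU (n m : ℕ) : Co n m → (Ba n m → ℂ) → ℂ
  | Sum.inl q => fun x => fH n q (fun i => x (Sum.inl i))
  | Sum.inr q => fF n m q

theorem fU_per (q : Fin n × Fin n) (x : Ba n m → ℂ) : fU n m (Sum.inl q) x = fH n q (fun i => x (Sum.inl i)) := rfl

theorem fU_phi (q : Fin m × Fin n) (x : Ba n m → ℂ) : fU n m (Sum.inr (Sum.inl q)) x =
    abI (fun i => x (Sum.inl i)) (x (Sum.inr q.1)) (fun y => y ^ (q.2 : ℕ)) := rfl

theorem fU_psi (q : Pr m) (x : Ba n m → ℂ) : fU n m (Sum.inr (Sum.inr (Sum.inl q))) x =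
    abI (fun i => x (Sum.inl i)) (x (Sum.inr q.1.1)) (fun y => (y - x (Sum.inr q.1.2))⁻¹) := rfl

theorem fU_log (q : Pr m) (x : Ba n m → ℂ) : fU n m (Sum.inr (Sum.inr (Sum.inr q))) x =
    log (x (Sum.inr q.1.2) - x (Sum.inr q.1.1)) - log (x (Sum.inr q.1.2) - x (Sum.inl (Fin.last n))) := rfl

/-- the index of the first marked point of a coordinate -/
def fst (n m : ℕ) : Fr n m → Fin m
  | Sum.inl q => q.1
  | Sum.inr (Sum.inl q) => q.1.1
  | Sum.inr (Sum.inr q) => q.1.1

/-- the coordinates which do not depend on the first `k` marked points -/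
def lvl (k : ℕ) : Co n m → Prop
  | Sum.inl _ => True
  | Sum.inr q => k ≤ (fst n m q : ℕ)

/-- the configurations in which only the marked points from the `k`-th on are restricted -/
def DK (n m k : ℕ) : Set (Ba n m → ℂ) :=
  {x | (∀ i j : Fin (n + 1), i < j → (x (Sum.inl i)).re < (x (Sum.inl j)).re) ∧
    (∀ s : Fin m, k ≤ (s : ℕ) → (x (Sum.inl (Fin.last n))).re < (x (Sum.inr s)).re) ∧
    ∀ s t : Fin m, k ≤ (s : ℕ) → s < t → (x (Sum.inr s)).re < (x (Sum.inr t)).re}

theorem DK_open (n m k : ℕ) : IsOpen (DK n m k) := by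
  have h : DK n m k = (⋂ i : Fin (n + 1), ⋂ j : Fin (n + 1), {x : Ba n m → ℂ | i < j →
      (x (Sum.inl i)).re < (x (Sum.inl j)).re}) ∩ ((⋂ s : Fin m, {x : Ba n m → ℂ | k ≤ (s : ℕ) →
      (x (Sum.inl (Fin.last n))).re < (x (Sum.inr s)).re}) ∩ (⋂ s : Fin m, ⋂ t : Fin m, {x : Ba n m → ℂ |
      (k ≤ (s : ℕ) ∧ s < t) → (x (Sum.inr s)).re < (x (Sum.inr t)).re})) := by
    ext x
    simp only [DK, mem_ofPred_eq, mem_inter_iff, mem_iInter, and_imp]
  rw [h]
  refine IsOpen.inter ?_ (IsOpen.inter ?_ ?_)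
  · refine isOpen_iInter_of_finite fun i => isOpen_iInter_of_finite fun j => ?_
    by_cases hc : i < j
    · simp only [hc, true_imp_iff]
      exact isOpen_lt (by fun_prop) (by fun_prop)
    · simp only [hc, false_imp_iff]
      exact isOpen_univ
  · refine isOpen_iInter_of_finite fun s => ?_
    by_cases hc : k ≤ (s : ℕ)
    · simp only [hc, true_imp_iff]
      exact isOpen_lt (by fun_prop) (by fun_prop)
    · simp only [hc, false_imp_iff]
      exact isOpen_univ
  · refine isOpen_iInter_of_finite fun s => isOpen_iInter_of_finite fun t => ?_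
    by_cases hc : k ≤ (s : ℕ) ∧ s < t
    · have h1 : {x : Ba n m → ℂ | (k ≤ (s : ℕ) ∧ s < t) → (x (Sum.inr s)).re < (x (Sum.inr t)).re} =
          {x : Ba n m → ℂ | (x (Sum.inr s)).re < (x (Sum.inr t)).re} := by
        ext x
        exact ⟨fun h => h hc, fun h _ => h⟩
      rw [h1]
      exact isOpen_lt (by fun_prop) (by fun_prop)
    · have h1 : {x : Ba n m → ℂ | (k ≤ (s : ℕ) ∧ s < t) → (x (Sum.inr s)).re < (x (Sum.inr t)).re} = univ := by
        ext x
        exact ⟨fun _ => trivial, fun _ h => absurd h hc⟩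
      rw [h1]
      exact isOpen_univ

theorem DK_convex (n m k : ℕ) : Convex ℝ (DK n m k) := by
  have key : ∀ (x y : Ba n m → ℂ) (a b : ℝ), 0 ≤ a → 0 ≤ b → a + b = 1 → ∀ p q : Ba n m, (x p).re < (x q).re →
      (y p).re < (y q).re → ((a • x + b • y) p).re < ((a • x + b • y) q).re := by
    intro x y a b ha hb hab p q h1 h2
    simp only [Pi.add_apply, Pi.smul_apply, Complex.add_re, Complex.smul_re, smul_eq_mul]
    rcases eq_or_lt_of_le ha with h | h
    · rw [← h] at hab ⊢
      have : b = 1 := by linarith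
      rw [this]
      linarith
    · nlinarith [mul_lt_mul_of_pos_left h1 h, mul_le_mul_of_nonneg_left h2.le hb]
  intro x hx y hy a b ha hb hab
  exact ⟨fun i j hij => key x y a b ha hb hab _ _ (hx.1 i j hij) (hy.1 i j hij),
    fun s hs => key x y a b ha hb hab _ _ (hx.2.1 s hs) (hy.2.1 s hs),
    fun s t hs hst => key x y a b ha hb hab _ _ (hx.2.2 s t hs hst) (hy.2.2 s t hs hst)⟩

theorem DK_nonempty (n m k : ℕ) : (DK n m k).Nonempty := by
  refine ⟨Sum.elim (fun i => ((i : ℕ) : ℂ)) (fun s => ((n + 1 + (s : ℕ) : ℕ) : ℂ)), ?_, ?_, ?_⟩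
  · intro i j hij
    simp only [Sum.elim_inl, natCast_re, Nat.cast_lt]
    exact hij
  · intro s _
    simp only [Sum.elim_inl, Sum.elim_inr, natCast_re, Nat.cast_lt, Fin.val_last]
    omega
  · intro s t _ hst
    simp only [Sum.elim_inr, natCast_re, Nat.cast_lt]
    have : (s : ℕ) < (t : ℕ) := hst
    omega

theorem re_lt {k : ℕ} {x : Ba n m → ℂ} (hx : x ∈ DK n m k) {s : Fin m} (hs : k ≤ (s : ℕ)) (i : Fin (n + 1)) :
    (x (Sum.inl i)).re < (x (Sum.inr s)).re := by
  rcases eq_or_lt_of_le (Fin.le_last i) with h | h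
  · rw [h]
    exact hx.2.1 s hs
  · exact (hx.1 _ _ h).trans (hx.2.1 s hs)

theorem fU_an (k : ℕ) (c : Co n m) (hc : lvl k c) : AnalyticOnNhd ℂ (fU n m c) (DK n m k) := by
  have hk : ∀ (i : Ba n m) (x : Ba n m → ℂ), AnalyticAt ℂ (fun x : Ba n m → ℂ => x i) x := fun i x =>
    (ContinuousLinearMap.proj (R := ℂ) (φ := fun _ : Ba n m => ℂ) i).analyticAt x
  rcases c with q | q | q | q
  · intro x hx
    let L : (Ba n m → ℂ) →L[ℂ] (Fin (n + 1) → ℂ) :=
      ContinuousLinearMap.pi fun i => ContinuousLinearMap.proj (R := ℂ) (φ := fun _ : Ba n m => ℂ) (Sum.inl i)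
    exact AnalyticAt.comp (g := fH n q) (f := fun x => L x) (fH_an q _ hx.1) (L.analyticAt x)
  · exact abI_an_pow (ε := Sum.inl) (p := Sum.inr q.1) (DK_open n m k) q.2 fun x hx => ⟨hx.1, hx.2.1 _ hc⟩
  · exact abI_an_inv (ε := Sum.inl) (p := Sum.inr q.1.1) (DK_open n m k) (Sum.inr q.1.2)
      (fun x hx => ⟨hx.1, hx.2.1 _ hc⟩) (fun x hx => hx.2.2 _ _ hc q.2)
  · intro x hx
    have h1 := hx.2.2 _ _ hc q.2
    have h2 := hx.2.1 _ hc
    have hc' : k ≤ (q.1.1 : ℕ) := hc
    refine AnalyticAt.sub (AnalyticAt.clog ((hk _ x).sub (hk _ x)) ?_) (AnalyticAt.clog ((hk _ x).sub (hk _ x)) ?_)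
    · apply slit_of_re
      rw [sub_re]
      have h3 : (x (Sum.inr q.1.1)).re < (x (Sum.inr q.1.2)).re := h1
      linarith
    · apply slit_of_re
      rw [sub_re]
      have h3 : (x (Sum.inr q.1.1)).re < (x (Sum.inr q.1.2)).re := h1
      have h4 : (x (Sum.inl (Fin.last n))).re < (x (Sum.inr q.1.1)).re := h2
      linarith

/-- coordinates which do not depend on the marked point `s0` -/
theorem fU_upd {k : ℕ} {s0 : Fin m} (hs0 : (s0 : ℕ) = k) {c : Co n m} (hc : lvl (k + 1) c) (x : Ba n m → ℂ) (z : ℂ) :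
    fU n m c (Function.update x (Sum.inr s0) z) = fU n m c x := by
  have h1 : ∀ i : Fin (n + 1), Function.update x (Sum.inr s0) z (Sum.inl i) = x (Sum.inl i) := fun i =>
    Function.update_of_ne (by simp) _ _
  have h2 : ∀ s : Fin m, k + 1 ≤ (s : ℕ) → Function.update x (Sum.inr s0) z (Sum.inr s) = x (Sum.inr s) := by
    intro s hs
    refine Function.update_of_ne (fun h => ?_) _ _
    have := Sum.inr_injective h
    rw [this] at hs
    omega
  have h3 : ∀ q : Pr m, k + 1 ≤ (q.1.1 : ℕ) → k + 1 ≤ (q.1.2 : ℕ) := by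
    intro q hq
    have : (q.1.1 : ℕ) < q.1.2 := q.2
    omega
  rcases c with q | q | q | q
  · rw [fU_per, fU_per]
    simp only [h1]
  · rw [fU_phi, fU_phi]
    simp only [h1]
    rw [h2 q.1 hc]
  · rw [fU_psi, fU_psi]
    simp only [h1]
    rw [h2 q.1.1 hc, h2 q.1.2 (h3 q hc)]
  · rw [fU_log, fU_log]
    rw [h1, h2 q.1.1 hc, h2 q.1.2 (h3 q hc)]

/-- the block of the marked point `s0` -/
def em (s0 : Fin m) : Fin n ⊕ ({t : Fin m // s0 < t} ⊕ {t : Fin m // s0 < t}) → Co n m
  | Sum.inl j => Sum.inr (Sum.inl (s0, j))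
  | Sum.inr (Sum.inl t) => Sum.inr (Sum.inr (Sum.inl ⟨(s0, t.1), t.2⟩))
  | Sum.inr (Sum.inr t) => Sum.inr (Sum.inr (Sum.inr ⟨(s0, t.1), t.2⟩))

theorem em_inj (s0 : Fin m) : Function.Injective (em (n := n) s0) := by
  rintro (j | t | t) (j' | t' | t') h
  · simp only [em, Sum.inr.injEq, Sum.inl.injEq, Prod.mk.injEq, true_and] at h
    rw [h]
  · simp [em] at h
  · simp [em] at h
  · simp [em] at h
  · simp only [em, Sum.inr.injEq, Sum.inl.injEq, Subtype.mk.injEq, Prod.mk.injEq, true_and] at h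
    rw [Subtype.ext h]
  · simp [em] at h
  · simp [em] at h
  · simp [em] at h
  · simp only [em, Sum.inr.injEq, Subtype.mk.injEq, Prod.mk.injEq, true_and] at h
    rw [Subtype.ext h]

theorem em_lvl (s0 : Fin m) (t) : lvl (s0 : ℕ) (em (n := n) s0 t) := by
  rcases t with j | t | t <;> exact le_rfl

theorem lvl_cases {s0 : Fin m} {c : Co n m} (hc : lvl (s0 : ℕ) c) : (∃ t, em s0 t = c) ∨ lvl ((s0 : ℕ) + 1) c := by
  have key : ∀ s : Fin m, (s0 : ℕ) ≤ (s : ℕ) → s = s0 ∨ (s0 : ℕ) + 1 ≤ (s : ℕ) := by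
    intro s hs
    rcases eq_or_lt_of_le hs with h | h
    · exact Or.inl (Fin.ext h.symm)
    · exact Or.inr h
  rcases c with q | ⟨s, j⟩ | ⟨⟨s, t⟩, hst⟩ | ⟨⟨s, t⟩, hst⟩
  · exact Or.inr trivial
  · rcases key s hc with h | h
    · subst h
      exact Or.inl ⟨Sum.inl j, rfl⟩
    · exact Or.inr h
  · rcases key s hc with h | h
    · subst h
      exact Or.inl ⟨Sum.inr (Sum.inl ⟨t, hst⟩), rfl⟩
    · exact Or.inr h
  · rcases key s hc with h | h
    · subst h
      exact Or.inl ⟨Sum.inr (Sum.inr ⟨t, hst⟩), rfl⟩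
    · exact Or.inr h

/-- the domain of the marked point `s0` -/
def Vs (x : Ba n m → ℂ) (s0 : Fin m) : Set ℂ :=
  {z | (x (Sum.inl (Fin.last n))).re < z.re ∧ ∀ t : Fin m, s0 < t → z.re < (x (Sum.inr t)).re}

theorem Vs_open (x : Ba n m → ℂ) (s0 : Fin m) : IsOpen (Vs x s0) := by
  have h : Vs x s0 = {z : ℂ | (x (Sum.inl (Fin.last n))).re < z.re} ∩ ⋂ t : Fin m, {z : ℂ | s0 < t →
      z.re < (x (Sum.inr t)).re} := by
    ext z
    simp only [Vs, mem_ofPred_eq, mem_inter_iff, mem_iInter]
  rw [h]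
  refine (isOpen_lt continuous_const continuous_re).inter (isOpen_iInter_of_finite fun t => ?_)
  by_cases hc : s0 < t
  · simp only [hc, true_imp_iff]
    exact isOpen_lt continuous_re continuous_const
  · simp only [hc, false_imp_iff]
    exact isOpen_univ

theorem Vs_nonempty {x : Ba n m → ℂ} {s0 : Fin m} (hx : x ∈ DK n m ((s0 : ℕ) + 1)) : (Vs x s0).Nonempty := by
  have h1 : ∀ᶠ z : ℝ in 𝓝[>] (x (Sum.inl (Fin.last n))).re, ∀ t : Fin m, s0 < t → z < (x (Sum.inr t)).re := by
    rw [Filter.eventually_all]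
    intro t
    by_cases hc : s0 < t
    · have h2 := hx.2.1 t hc
      filter_upwards [Ioo_mem_nhdsGT h2] with z hz _
      exact hz.2
    · exact Eventually.of_forall fun z h => absurd h hc
  obtain ⟨z, hz1, hz2⟩ := (h1.and self_mem_nhdsWithin).exists
  exact ⟨(z : ℂ), by simpa using hz2, fun t ht => by simpa using hz1 t ht⟩

theorem upd_mem {x : Ba n m → ℂ} {s0 : Fin m} (hx : x ∈ DK n m ((s0 : ℕ) + 1)) {z : ℂ} (hz : z ∈ Vs x s0) :
    Function.update x (Sum.inr s0) z ∈ DK n m (s0 : ℕ) := by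
  have h1 : ∀ i : Fin (n + 1), Function.update x (Sum.inr s0) z (Sum.inl i) = x (Sum.inl i) := fun i =>
    Function.update_of_ne (by simp) _ _
  have h2 : ∀ s : Fin m, s ≠ s0 → Function.update x (Sum.inr s0) z (Sum.inr s) = x (Sum.inr s) := by
    intro s hs
    exact Function.update_of_ne (fun h => hs (Sum.inr_injective h)) _ _
  refine ⟨fun i j hij => ?_, fun s hs => ?_, fun s t hs hst => ?_⟩
  · rw [h1, h1]
    exact hx.1 i j hij
  · rw [h1]
    by_cases hss : s = s0
    · subst hss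
      rw [Function.update_self]
      exact hz.1
    · rw [h2 s hss]
      refine hx.2.1 s ?_
      have : (s : ℕ) ≠ s0 := fun h => hss (Fin.ext h)
      omega
  · have ht : t ≠ s0 := by
      rintro rfl
      have : (s : ℕ) < t := hst
      omega
    rw [h2 t ht]
    by_cases hss : s = s0
    · subst hss
      rw [Function.update_self]
      exact hz.2 t hst
    · rw [h2 s hss]
      refine hx.2.2 s t ?_ hst
      have : (s : ℕ) ≠ s0 := fun h => hss (Fin.ext h)
      omega

/-- the functions of the block as functions of the marked point -/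
noncomputable def ph (x : Ba n m → ℂ) (s0 : Fin m) (t : Fin n ⊕ ({t : Fin m // s0 < t} ⊕ {t : Fin m // s0 < t}))
    (z : ℂ) : ℂ := fU n m (em s0 t) (Function.update x (Sum.inr s0) z)

theorem deriv_abI_pow {e : Fin (n + 1) → ℂ} (he : ∀ i k, i < k → (e i).re < (e k).re) {z : ℂ}
    (hz : (e (Fin.last n)).re < z.re) (j : ℕ) (hd : DifferentiableAt ℂ (fun z => abI e z (fun y => y ^ j)) z) :
    deriv (fun z => abI e z (fun y => y ^ j)) z * rS e z = z ^ j := by
  have hz' : ∀ i, (e i).re < z.re := by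
    intro i
    rcases eq_or_lt_of_le (Fin.le_last i) with h | h
    · rw [h]
      exact hz
    · exact (he _ _ h).trans hz
  refine deriv_abI hz' (G := {y | ∀ i : Fin n, (e i.castSucc).re < y.re}) ?_ ?_ ?_ hd
  · have h : {y : ℂ | ∀ i : Fin n, (e i.castSucc).re < y.re} = ⋂ i : Fin n, {y : ℂ | (e i.castSucc).re < y.re} := by
      ext y
      simp
    rw [h]
    exact isOpen_iInter_of_finite fun i => isOpen_lt continuous_const continuous_re
  · intro y hy
    refine ContinuousAt.continuousWithinAt ?_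
    refine (continuousAt_id.pow j).mul ?_
    unfold rG
    refine tendsto_finsetProd _ fun i _ => ?_
    refine ContinuousAt.cpow (continuousAt_id.sub continuousAt_const) continuousAt_const ?_
    apply slit_of_re
    have := hy i
    simp
    linarith
  · intro v _ i
    exact (he _ _ (Fin.castSucc_lt_last i)).trans_le (pt_ge hz v)

theorem deriv_abI_inv {e : Fin (n + 1) → ℂ} (he : ∀ i k, i < k → (e i).re < (e k).re) {z w : ℂ}
    (hz : (e (Fin.last n)).re < z.re) (hw : z.re < w.re)
    (hd : DifferentiableAt ℂ (fun z => abI e z (fun y => (y - w)⁻¹)) z) :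
    deriv (fun z => abI e z (fun y => (y - w)⁻¹)) z * rS e z * (z - w) = 1 := by
  have hz' : ∀ i, (e i).re < z.re := by
    intro i
    rcases eq_or_lt_of_le (Fin.le_last i) with h | h
    · rw [h]
      exact hz
    · exact (he _ _ h).trans hz
  have hzw : z - w ≠ 0 := by
    intro h
    have := congrArg Complex.re h
    rw [sub_re, zero_re] at this
    linarith
  rw [deriv_abI hz' (G := (⋂ i : Fin n, {y : ℂ | (e i.castSucc).re < y.re}) ∩ {y : ℂ | y.re < w.re}) ?_ ?_ ?_ hd,
    inv_mul_cancel₀ hzw]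
  · exact (isOpen_iInter_of_finite fun i => isOpen_lt continuous_const continuous_re).inter
      (isOpen_lt continuous_re continuous_const)
  · rintro y ⟨hy, hyw⟩
    rw [mem_iInter] at hy
    have hyw' : y.re < w.re := hyw
    refine ContinuousAt.continuousWithinAt ?_
    refine ((continuousAt_id.sub continuousAt_const).inv₀ ?_).mul ?_
    · intro h
      have := congrArg Complex.re h
      simp at this
      linarith
    · unfold rG
      refine tendsto_finsetProd _ fun i _ => ?_
      refine ContinuousAt.cpow (continuousAt_id.sub continuousAt_const) continuousAt_const ?_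
      apply slit_of_re
      have h1 : (e i.castSucc).re < y.re := hy i
      simp
      linarith
  · intro v hv
    refine ⟨mem_iInter.2 fun i => ?_, ?_⟩
    · exact (he _ _ (Fin.castSucc_lt_last i)).trans_le (pt_ge hz v)
    · exact (pt_le hz hv).trans_lt hw

theorem ph_indep {x : Ba n m → ℂ} {s0 : Fin m} (hx : x ∈ DK n m ((s0 : ℕ) + 1)) : Indep (Vs x s0) (ph x s0) := by
  classical
  set e : Fin (n + 1) → ℂ := fun i => x (Sum.inl i) with he
  have heo : ∀ i k, i < k → (e i).re < (e k).re := hx.1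
  have hei : Function.Injective e := by
    intro i j hij
    rcases lt_trichotomy i j with h | h | h
    · exact absurd (congrArg Complex.re hij) (heo _ _ h).ne
    · exact h
    · exact absurd (congrArg Complex.re hij) (heo _ _ h).ne'
  have hle : ∀ z ∈ Vs x s0, ∀ i, (e i).re < z.re := by
    intro z hz i
    rcases eq_or_lt_of_le (Fin.le_last i) with h | h
    · rw [h]
      exact hz.1
    · exact (heo _ _ h).trans hz.1
  have h1 : ∀ (z : ℂ) (i : Fin (n + 1)), Function.update x (Sum.inr s0) z (Sum.inl i) = x (Sum.inl i) := fun z i =>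
    Function.update_of_ne (by simp) _ _
  have h2 : ∀ (z : ℂ) (s : Fin m), s0 < s → Function.update x (Sum.inr s0) z (Sum.inr s) = x (Sum.inr s) := by
    intro z s hs
    exact Function.update_of_ne (fun h => hs.ne (Sum.inr_injective h).symm) _ _
  have han : ∀ t, AnalyticOnNhd ℂ (ph x s0 t) (Vs x s0) := by
    intro t z hz
    exact AnalyticAt.comp (g := fU n m (em s0 t)) (f := fun z : ℂ => Function.update x (Sum.inr s0) z)
      (fU_an _ _ (em_lvl s0 t) _ (upd_mem hx hz)) (upd_an x (Sum.inr s0) z)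
  have hp1 : ∀ j : Fin n, ph x s0 (Sum.inl j) = fun z => abI e z (fun y => y ^ (j : ℕ)) := by
    intro j
    funext z
    show fU n m (Sum.inr (Sum.inl (s0, j))) _ = _
    rw [fU_phi]
    simp only [h1]
    rw [Function.update_self]
  have hp2 : ∀ t : {t : Fin m // s0 < t}, ph x s0 (Sum.inr (Sum.inl t)) =
      fun z => abI e z (fun y => (y - x (Sum.inr t.1))⁻¹) := by
    intro t
    funext z
    show fU n m (Sum.inr (Sum.inr (Sum.inl ⟨(s0, t.1), t.2⟩))) _ = _
    rw [fU_psi]
    simp only [h1]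
    rw [Function.update_self, h2 z t.1 t.2]
  have hp3 : ∀ t : {t : Fin m // s0 < t}, ph x s0 (Sum.inr (Sum.inr t)) =
      fun z => log (x (Sum.inr t.1) - z) - log (x (Sum.inr t.1) - x (Sum.inl (Fin.last n))) := by
    intro t
    funext z
    show fU n m (Sum.inr (Sum.inr (Sum.inr ⟨(s0, t.1), t.2⟩))) _ = _
    rw [fU_log]
    simp only
    rw [h1, Function.update_self, h2 z t.1 t.2]
  refine hy3' (Vs_open x s0) (Vs_nonempty hx) (∏ i, (Polynomial.X - Polynomial.C (e i)))
    (Polynomial.separable_prod_X_sub_C_iff.2 hei).squarefree (rS e) (fun z hz => rS_an (hle z hz)) ?_ ?_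
    (fun t : {t : Fin m // s0 < t} => x (Sum.inr t.1)) ?_ ?_ (ph x s0) han ?_ ?_ ?_
  · intro z hz
    rw [rS_sq (hle z hz), Polynomial.eval_prod]
    simp
  · rw [Polynomial.natDegree_finsetProd_X_sub_C_eq_card]
    simp
  · intro t t' htt
    rcases lt_trichotomy t.1 t'.1 with h | h | h
    · exact absurd (congrArg Complex.re htt) (hx.2.2 _ _ t.2 h).ne
    · exact Subtype.ext h
    · exact absurd (congrArg Complex.re htt) (hx.2.2 _ _ t'.2 h).ne'
  · intro t
    rw [Polynomial.eval_prod]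
    refine Finset.prod_ne_zero_iff.2 fun i _ => ?_
    rw [Polynomial.eval_sub, Polynomial.eval_X, Polynomial.eval_C]
    intro h
    have h3 := congrArg Complex.re h
    rw [sub_re, zero_re] at h3
    have h4 := re_lt hx (s := t.1) t.2 i
    have h5 : (e i).re = (x (Sum.inl i)).re := rfl
    linarith
  · intro j z hz
    have h3 := (han (Sum.inl j) z hz).differentiableAt
    rw [hp1] at h3 ⊢
    exact deriv_abI_pow heo hz.1 j h3
  · intro t z hz
    have h3 := (han (Sum.inr (Sum.inl t)) z hz).differentiableAt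
    rw [hp2] at h3 ⊢
    exact deriv_abI_inv heo hz.1 (hz.2 t.1 t.2) h3
  · intro t z hz
    rw [hp3]
    have h4 := hz.2 t.1 t.2
    have h5 : x (Sum.inr t.1) - z ∈ slitPlane := by
      apply slit_of_re
      rw [sub_re]
      linarith
    have h6 : HasDerivAt (fun z => log (x (Sum.inr t.1) - z) - log (x (Sum.inr t.1) - x (Sum.inl (Fin.last n))))
        (-1 / (x (Sum.inr t.1) - z)) z :=
      (((hasDerivAt_id z).const_sub (x (Sum.inr t.1))).clog h5).sub_const _
    rw [h6.deriv]
    have h7 : x (Sum.inr t.1) - z ≠ 0 := ne_of_slit h5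
    field_simp
    ring

theorem step (p : MvPolynomial (Co n m) (MvPolynomial (Ba n m) ℂ)) (s0 : Fin m)
    (H : ∀ x ∈ DK n m (s0 : ℕ), ∀ Y : Co n m → ℂ, (∀ c, lvl (s0 : ℕ) c → Y c = fU n m c x) → evX x Y p = 0) :
    ∀ x ∈ DK n m ((s0 : ℕ) + 1), ∀ Y : Co n m → ℂ, (∀ c, lvl ((s0 : ℕ) + 1) c → Y c = fU n m c x) →
      evX x Y p = 0 := by
  intro x hx Y hY
  refine line (i0 := Sum.inr s0) (em_inj s0) (ph_indep hx) fun z hz => ?_
  refine H _ (upd_mem hx hz) _ fun c hc => ?_
  rcases lvl_cases hc with ⟨t, rfl⟩ | h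
  · rw [mix_em (em_inj s0)]
    rfl
  · by_cases hex : ∃ t, em s0 t = c
    · obtain ⟨t, rfl⟩ := hex
      rw [mix_em (em_inj s0)]
      rfl
    · push Not at hex
      rw [mix_ne _ _ hex, hY c h, fU_upd rfl h]

theorem steps (p : MvPolynomial (Co n m) (MvPolynomial (Ba n m) ℂ))
    (H : ∀ x ∈ DK n m 0, evM (fU n m) x p = 0) (k : ℕ) (hk : k ≤ m) : ∀ x ∈ DK n m k, ∀ Y : Co n m → ℂ,
      (∀ c, lvl k c → Y c = fU n m c x) → evX x Y p = 0 := by
  induction k with
  | zero =>
    intro x hx Y hY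
    have h1 : Y = fun c => fU n m c x := by
      funext c
      refine hY c ?_
      rcases c with q | q
      · trivial
      · exact Nat.zero_le _
    rw [h1, ← evM_eq]
    exact H x hx
  | succ k ih => exact step p ⟨k, hk⟩ (ih (by omega))

/-- the torsor: the free coordinates are arbitrary -/
def TorU (n m : ℕ) (x : Ba n m → ℂ) : Set (Co n m → ℂ) :=
  {Y | (fun q => Y (Sum.inl q)) ∈ TorH n (fun i => x (Sum.inl i))}

theorem torU (hn : Even n) : TorM (DK n m 0) (fU n m) (TorU n m) := by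
  classical
  have hT := torH hn
  refine ⟨fun x hx => hT.self _ hx.1, ?_, ?_, ?_⟩
  · intro p hp x hx Y hY
    have h1 := steps p hp m le_rfl
    have h2 := hT.inv (sps (fun s => x (Sum.inr s)) (fun c => Y (Sum.inr c)) p) (fun e he => by
      rw [evM_eq, sps_ev]
      refine h1 (Sum.elim e (fun s => x (Sum.inr s)))
        ⟨he, fun s hs => absurd s.2 (not_lt.2 hs), fun s t hs => absurd s.2 (not_lt.2 hs)⟩ _ ?_
      intro c hc
      rcases c with q | q
      · rfl
      · exact absurd (fst n m q).2 (not_lt.2 hc)) (fun i => x (Sum.inl i)) hx.1 (fun q => Y (Sum.inl q)) hY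
    rw [sps_ev] at h2
    have h3 : Sum.elim (fun i => x (Sum.inl i)) (fun s => x (Sum.inr s)) = x := Sum.elim_comp_inl_inr x
    have h4 : Sum.elim (fun q => Y (Sum.inl q)) (fun c => Y (Sum.inr c)) = Y := Sum.elim_comp_inl_inr Y
    rw [h3, h4] at h2
    exact h2
  · intro x hx Y hY
    obtain ⟨γ, h0, h1, h2⟩ := hT.path _ hx.1 _ hY
    refine ⟨Sum.elim γ (fun c => Polynomial.C (fU n m (Sum.inr c) x) +
      Polynomial.X * Polynomial.C (Y (Sum.inr c) - fU n m (Sum.inr c) x)), ?_, ?_, ?_⟩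
    · rintro (q | q)
      · exact h0 q
      · simp
    · rintro (q | q)
      · exact h1 q
      · simp
    · intro t
      exact h2 t
  · obtain ⟨c, hc, hsec⟩ := hT.sec
    have hev : ∀ (x : Ba n m → ℂ) (a : MvPolynomial (Fin (n + 1)) ℂ),
        MvPolynomial.eval x (MvPolynomial.rename Sum.inl a) = MvPolynomial.eval (fun i => x (Sum.inl i)) a := by
      intro x a
      rw [MvPolynomial.eval_rename]
      rfl
    refine ⟨MvPolynomial.rename Sum.inl c, ?_, ?_⟩
    · rw [Ne, (MvPolynomial.rename_injective _ Sum.inl_injective).eq_iff' (map_zero _)]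
      exact hc
    · intro x0 hx0 hc0 Y0 hY0
      rw [hev] at hc0
      obtain ⟨v, hv, hv0⟩ := hsec _ hx0.1 hc0 _ hY0
      refine ⟨Sum.elim (fun q => MvPolynomial.rename Sum.inl (v q))
        (fun q => MvPolynomial.C (Y0 (Sum.inr q)) * MvPolynomial.rename Sum.inl c), ?_, ?_⟩
      · intro x hx hcx
        rw [hev] at hcx
        have h1 := hv _ hx.1 hcx
        show (fun q => MvPolynomial.eval x (MvPolynomial.rename Sum.inl (v q)) /
          MvPolynomial.eval x (MvPolynomial.rename Sum.inl c)) ∈ TorH n _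
        simp only [hev]
        exact h1
      · rintro (q | q)
        · simp only [Sum.elim_inl, hev]
          exact hv0 q
        · simp only [Sum.elim_inr, hev, map_mul, MvPolynomial.eval_C]
          exact mul_div_cancel_right₀ _ hc0

end Pool.Agent.N207.UH
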